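import Pool.Agent.LSG.StmtsE

/-!
# Squad LSG (MP_005a41_gt), block X: all metrizable groups (not abelian, any density)

THEOREM (`FinNStmt`).  Every metrizable topological group `H` which is not precompact is l-equivalent
to `H × ℕ`, and l-stable.  (Block V: abelian groups.  Block W: density countable or of uncountable
cofinality.)

NEW: a Sidon sequence in every metrizable group which is not separable (`SdnStmt`).  The rest is
block V with left cosets `h L` and right translations `h ↦ h l⁻¹ d`.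
Rows: file `Pool/Agent/HelperNN_LSN/XXX.lean`, import `Pool.Agent.LSG.StmtsF`, namespace
`Pool.Agent.LSN.HNN`, `open Pool.Agent.LSG`, theorem `xxx (hypotheses = rows in uses, in this order)`.
-/

set_option autoImplicit false

open MeasureTheory Set Topology
open scoped BigOperators Pointwise

namespace Pool.Agent.LSG

/-- **SDN** (medium).  A Sidon sequence in a metrizable group which is not separable.
PROOF. (0) There is a neighbourhood `V₀` of 1 such that no countable `F` has `F V₀ = H`: otherwise take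
countable `F_n` for a countable base `V_n` of symmetric neighbourhoods; `⋃ F_n` is dense (`h ∈ f V_n` gives
`f ∈ h V_n`), so `H` is separable.  We can take `V₀` symmetric.  (1) `S` maximal (`zorn_subset`) with `x⁻¹ y ∉ V₀` for
`x ≠ y` in `S`: `S V₀ = H`, so `S` is not countable.  `V'` a symmetric neighbourhood, `V' V' V' V' ⊆ V₀`.  `W_n` a
decreasing countable base at 1.  For every `x` there is `n` with `x⁻¹ W_n x ⊆ V'`; so
`S = ⋃ S_n`, `S_n = {x ∈ S : x⁻¹ W_n x ⊆ V'}`, and some `S_n` is infinite.  `V` a symmetric neighbourhood with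
`V V V V ⊆ W_n`.  (2) For all `z : H`, `d ∈ S_n` at most one `x ∈ S_n` is in `V² z V² d`: if `x = v z w d`,
`y = v' z w' d` then `y = (v' v⁻¹) x (d⁻¹ (w⁻¹ w') d)`, so `x⁻¹ y = (x⁻¹ (v' v⁻¹) x) (d⁻¹ (w⁻¹ w') d) ∈ V' V' ⊆ V₀`,
`x = y`.  (3) Recursion: `d n ∈ S_n` (the infinite set) outside of the finitely many elements of it that lie in
some `V² (d r') (d r)⁻¹ V² (d s)`, `r, r', s < n` (`r = r'`: `d n ≠ d s`).  (4) Locally finite: `d_s⁻¹ V d_s ⊆ V'`.  If `h₀ u =
v d_s`, `u ∈ V'`, `v ∈ V`, then `h₀ u = d_s v₁`, `v₁ ∈ V'`; for `h₀ u' = d_r v₂`: `d_r⁻¹ d_s = v₂ u'⁻¹ u v₁⁻¹ ∈ V'⁴ ⊆ V₀`, so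
`r = s`: the neighbourhood `h₀ V'` meets at most one of the sets.  (5) Finite: it is enough that for every `g` there
is at most one pair `s < s'` with `g ∈ V d_s d_s'⁻¹ V` (for `s > s'` take `g⁻¹`).  Let `g = v d_s d_s'⁻¹ w = a d_r d_r'⁻¹ b`.
If `s' > r'`: `d_s' = (w b⁻¹) d_r' d_r⁻¹ (a⁻¹ v) d_s`, excluded by (3).  If `s' = r'`: `d_r⁻¹ d_s =
(d_r⁻¹ (v⁻¹ a) d_r) (d_s'⁻¹ (b w⁻¹) d_s') ∈ V' V'` (up to inverses), so `r = s`. -/
def SdnStmt : Prop := ∀ (H : Type) [Group H] [TopologicalSpace H] [IsTopologicalGroup H]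
  [TopologicalSpace.MetrizableSpace H], ¬ TopologicalSpace.SeparableSpace H →
  ∃ V ∈ nhds (1 : H), ∃ d : ℕ → H,
    (LocallyFinite fun s => {h : H | ∃ v ∈ V, h = v * d s}) ∧
    ∀ g : H, {p : ℕ × ℕ | p.1 ≠ p.2 ∧ ∃ v ∈ V, ∃ w ∈ V, g * (w * d p.2) = v * d p.1}.Finite

/-- **QMN** (medium).  The space of left cosets of a closed subgroup (not normal) of a metrizable group is
metrizable.
PROOF. `𝓤 H` = the uniformity of `IsTopologicalGroup.rightUniformSpace` (or `toUniformSpace`): `(x, y)` with `y x⁻¹` (or `y / x`) near 1; it is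
countably generated and invariant under right translations.  Put the uniformity `map (Prod.map π π) (𝓤 H)` on
`H ⧸ L`: symmetric, reflexive, and `(π x, π y)`, `(π y', π z)` with `y = v x`, `z = v' y'`, `y' = y l` give
`z l⁻¹ = v' v x`.  `𝓝 (π x) = map π (𝓝 x)` (`QuotientGroup.nhds_eq`; `π` is open): the uniformity induces the quotient
topology (`UniformSpace.ofCoreEq` or `UniformSpace.ofNhdsEqComap`-like constructors).  Points are closed (`x L` is closed), so
T0; `UniformSpace.metrizableSpace`.  (Or directly: the pseudometric `inf_l d (x, y l)` for a right invariant metric `d`.) -/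
def QmnStmt : Prop := ∀ (H : Type) [Group H] [TopologicalSpace H] [IsTopologicalGroup H]
  [TopologicalSpace.MetrizableSpace H] (L : Subgroup H), IsClosed (L : Set H) →
  TopologicalSpace.MetrizableSpace (H ⧸ L)

/-- the index `m` is active on the left coset of `h` -/
def ActN {H : Type} [Group H] [TopologicalSpace H] (L : Subgroup H) (χ : ℕ → C(H, ℝ))
    (m : ℕ) (h : H) : Prop := ∃ z ∈ L, χ m (h * z) ≠ 0

/-- The pieces: `χ` is a countable locally finite partition (squares), the piece `m` at `h` is in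
`ξ m h V l m`, `l m ∈ L`, where the centre `ξ m h` depends only on the left coset of `h`, and locally there are finitely many centres. -/
def PiecesN {H : Type} [Group H] [TopologicalSpace H] (L : Subgroup H) (V : Set H)
    (χ : ℕ → C(H, ℝ)) (l : ℕ → H) (ξ : ℕ → H → H) : Prop :=
  (∀ m, l m ∈ L) ∧ (LocallyFinite fun m => Function.support (χ m)) ∧
  (∀ h, ∑ᶠ m, (χ m h) ^ 2 = 1) ∧ (∀ m h, χ m h ≠ 0 → (ξ m h)⁻¹ * h * (l m)⁻¹ ∈ V) ∧
  (∀ m h, ∀ z ∈ L, ξ m (h * z) = ξ m h) ∧
  ∀ h, ∃ W ∈ nhds h, {x : H | ∃ m, ∃ h' ∈ W, ActN L χ m h' ∧ ξ m h' = x}.Finite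

/-- **PCN** (medium-strong; uses STO, CTK, QMN; edit of Helper88_LSG/PCS.lean).  Existence of the pieces.
PROOF. `Q = H ⧸ L` is metrizable (QMN), `π : H → Q` continuous and open.  Let `e : H → [0, 1]` be continuous, `e 1 = 1`, `e = 0` off `V`, `V₁` an open symmetric neighbourhood of 1 with
`V₁ V₁ ⊆ {e > 0}`.  STO for the cover `π (x V₁)`, `x ∈ H`: `ψ c x`.  Let `l j` be a dense sequence of `L`.  `φ c j h = ∑ᶠ x, ψ c x (π h) * e (x⁻¹ * h * (l j)⁻¹)` (at most one
summand is not 0; continuous, locally finite).  For every `h`: `ψ c x (π h) ≠ 0` for some `c`, `x`, so `h = x v z`, `v ∈ V₁`, `z ∈ L`, and `z ∈ V₁ l j` for some `j` (`V₁ z ∩ L` is a nonempty open subset of `L`), so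
`x⁻¹ h (l j)⁻¹ ∈ V₁ V₁` and `φ c j h > 0`.  CTK for the family `φ c j` enumerated by `m = Nat.pair c j`: `χ m`.  `ξ m h` = the unique `x` with `ψ c x (π h) ≠ 0` (1 if there is none), it depends on `π h` only.
`ActN m h'` implies `ψ c (ξ m h') (π h') ≠ 0`, and near `π h` only finitely many `(c, x)` have `ψ c x ≠ 0`. -/
def PcnStmt : Prop := ∀ (H : Type) [Group H] [TopologicalSpace H] [IsTopologicalGroup H]
  [TopologicalSpace.MetrizableSpace H] (L : Subgroup H), IsClosed (L : Set H) →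
  TopologicalSpace.SeparableSpace L → ∀ V ∈ nhds (1 : H),
  ∃ (χ : ℕ → C(H, ℝ)) (l : ℕ → H) (ξ : ℕ → H → H), PiecesN L V χ l ξ

/-- **THN** (medium; uses QMN; edit of Helper92_LSG/THE.lean).  A continuous bound for the levels.
PROOF. As THE: `Q = H ⧸ L` is metrizable, so paracompact and normal.  For `q : Q` let `t q` be the convex set of the `r : ℝ` with `N (ξ m h) (ξ m' h) ≤ r` for all `h` with `π h = q` and all `m`, `m'`
active on the coset of `h`; `exists_continuous_forall_mem_convex_of_local_const` gives `θ₀ : C(Q, ℝ)`; `θ = θ₀ ∘ π`. -/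
def ThnStmt : Prop := ∀ (H : Type) [Group H] [TopologicalSpace H] [IsTopologicalGroup H]
  [TopologicalSpace.MetrizableSpace H] (L : Subgroup H), IsClosed (L : Set H) →
  ∀ (V : Set H) (χ : ℕ → C(H, ℝ)) (l : ℕ → H) (ξ : ℕ → H → H), PiecesN L V χ l ξ →
  ∀ N : H → H → ℕ, ∃ θ : C(H, ℝ), (∀ h, ∀ z ∈ L, θ (h * z) = θ h) ∧
    ∀ h m m', ActN L χ m h → ActN L χ m' h → (N (ξ m h) (ξ m' h) : ℝ) ≤ θ h

/-- **ABN** (medium-strong; uses SLO, SDN, PCN, THN; edit of Helper62_LSG/ABC.lean).  Infinitely many copies.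
PROOF. `V`, `d` from SDN, `L` the closure of the subgroup generated by `d` (closed, separable: the closure of a countable set), `χ`, `l`, `ξ` from PCN for `V`.  Let `s (m, n, k) = Nat.pair m (Nat.pair n k)`
(injective).  `N x x' = 2 +` the maximum of the last components `k`, `k'` of the triples coded by the `s`, `s'` of the pairs `(s, s')` of the finite set of SDN for `g = x⁻¹ * x'`.  `θ` from THN; `θ h ≥ 2` for all `h`
(some `χ m h ≠ 0`).  `a n (m, k) h = sqrt (max 0 (1 - |θ h - k|)) * χ m h`, `τ n (m, k) h = h * ((l m)⁻¹ * d s)` with `s = s (m, n, k)` (`Homeomorph.mulRight`), `B = ℕ × ℕ`.  Hypotheses of SLO: (1), (2) as in ABC.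
(3) Let `a β h ≠ 0`, `a β' h' ≠ 0`, `h * ((l m)⁻¹ * d s) = h' * ((l m')⁻¹ * d s')`.  `h' ∈ h L`, so `θ h = θ h'`, `ξ m' h' = ξ m' h`, both indices are active at `h`.  `v = (ξ m h)⁻¹ * h * (l m)⁻¹ ∈ V`,
`w = (ξ m' h')⁻¹ * h' * (l m')⁻¹ ∈ V`, and `((ξ m h)⁻¹ * ξ m' h) * (w * d s') = v * d s`.  If `s ≠ s'`: `(s, s')` is in the finite set for `g`, `k ≤ N (ξ m h) (ξ m' h) - 2 ≤ θ h - 2`, but `a β h ≠ 0` gives `k > θ h - 1`:
contradiction.  So `s = s'`, the triples are equal.  (4) Landing sets are locally finite: let `h₀`, `W` from `PiecesN`, `h'' ∈ W`, `h'' = h * ((l m)⁻¹ * d s)`, `a β h ≠ 0`: `m` is active at `h''`, `x = ξ m h''` is in a finite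
set `X₀`, and `x⁻¹ * h'' = v * d s` with `v ∈ V`; the sets `V d s` are locally finite at the points `x⁻¹ * h₀`, `x ∈ X₀`: in a smaller neighbourhood of `h₀` only finitely many `s`. -/
def AbnStmt : Prop := ∀ (H : Type) [Group H] [TopologicalSpace H] [IsTopologicalGroup H]
  [TopologicalSpace.MetrizableSpace H], ¬ TopologicalSpace.SeparableSpace H →
  Compl (ℕ → ↥(Cp H)) ↥(Cp H)

/-- **FIN** (easy-medium; uses ABN, PEL, CEX, CPE, BRI; compare Helper30_LSG/AB2.lean).  OUTPUT.
PROOF. If `H` is separable: `Pool.Agent.LSG.H18.tame_` (Helper18_LSG/AsmE.lean) with a dense set `D` of least cardinality, which is countable.  If `H` is not separable: ABN and the proof of AB2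
(`E = (ℕ → Cp H)`, `E ≃ (ℕ → E)`, PEL (1), then as in NP2). -/
def FinNStmt : Prop := ∀ (H : Type) [Group H] [TopologicalSpace H] [IsTopologicalGroup H]
  [TopologicalSpace.MetrizableSpace H],
  (∃ U ∈ nhds (1 : H), ∀ F : Finset H, (⋃ g ∈ F, g • U) ≠ Set.univ) → LEq H (H × ℕ) ∧ LStable H

end Pool.Agent.LSG
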