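import Pool.Agent.LSG.StmtsC

/-!
# Squad LSG (MP_005a41_gt), block V: metrizable abelian groups of any density

THEOREM.  Every metrizable abelian topological group `H` which is not precompact is l-equivalent to `H × ℕ`, and l-stable (no separability).
-/

set_option autoImplicit false

open MeasureTheory Set Topology
open scoped BigOperators Pointwise

namespace Pool.Agent.LSG

/-- **SLO** (medium).  The slots lemma.
PROOF. `i F h' = ∑ᶠ p : ℕ × B, a p (τ_p⁻¹ h') * F p.1 (τ_p⁻¹ h')` and `p g n h = ∑ᶠ b, a n b h * g (τ n b h)`.  Both are continuous functions (`continuous_finsum`; locally finite), linear in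
`F`, `g`, and every value depends on finitely many values of `F`, `g` (pointwise topologies).  `p (i F) n h = ∑ᶠ b, a n b h * ∑ᶠ p', a p' (τ_p'⁻¹ (τ n b h)) * F p'.1 (τ_p'⁻¹ (τ n b h))`: if
`a n b h ≠ 0` the only nonzero summand is `p' = (n, b)`, so this is `∑ᶠ b, (a n b h)^2 * F n h = F n h`. -/
def SloStmt : Prop := ∀ (H B : Type) [TopologicalSpace H] (a : ℕ → B → C(H, ℝ))
  (τ : ℕ → B → H ≃ₜ H), (∀ n, LocallyFinite fun b => Function.support (a n b)) →
  LocallyFinite (fun p : ℕ × B => (τ p.1 p.2) '' Function.support (a p.1 p.2)) →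
  (∀ n h, ∑ᶠ b, (a n b h) ^ 2 = 1) →
  (∀ n b n' b' h h', a n b h ≠ 0 → a n' b' h' ≠ 0 → τ n b h = τ n' b' h' → n = n' ∧ b = b') →
  Compl (ℕ → ↥(Cp H)) ↥(Cp H)

/-- **CTK** (medium).  From a countable family to a locally finite one.
PROOF. `φ' m = max 0 (φ m - m * ∑ l < m, φ l)`.  If `φ l h > 0` then for `m > l` with `m * φ l h > 2 (1 + ...)`: in more detail, replace first `φ m` by `min 1 (φ m)`; if `φ l h > 0` then in a
neighbourhood of `h` `φ l > r > 0`, and `φ' m = 0` there for `m > max l (1/r)`.  So `φ'` is locally finite, `φ' m h ≠ 0` implies `φ m h ≠ 0`, and at the least `m` with `φ m h ≠ 0` `φ' m h = φ m h > 0`.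
`χ m = φ' m / sqrt (∑ᶠ l, (φ' l) ^ 2)`. -/
def CtkStmt : Prop := ∀ (H : Type) [TopologicalSpace H] (φ : ℕ → C(H, ℝ)),
  (∀ m h, 0 ≤ φ m h) → (∀ h, ∃ m, φ m h ≠ 0) →
  ∃ χ : ℕ → C(H, ℝ), (∀ m h, χ m h ≠ 0 → φ m h ≠ 0) ∧
    (LocallyFinite fun m => Function.support (χ m)) ∧ ∀ h, ∑ᶠ m, (χ m h) ^ 2 = 1

/-- **STO** (medium-strong; uses CTK).  Stone's theorem: a sigma-discrete partition.
PROOF. Let `d` be a metric, well-order `I` (`WellOrderingRel`).  `u i q = min 1 (infDist q (U i)ᶜ)` (1 if `U i = univ`), 1-Lipschitz, positive exactly on `U i`.  For `c ≥ 1`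
`A c i = {q | 3 / c ≤ u i q ∧ ∀ j < i, u j q = 0}`.  If `i ≠ j`, say `j < i`, `q ∈ A c i`, `q' ∈ A c j`: `u j q = 0`, `u j q' ≥ 3/c`, so `d q q' ≥ 3/c`.  `φ c i q = max 0 (1/c - infDist q (A c i))` (0 if `A c i` is
empty): nonzero only within `1/c` of `A c i`, so only where `u i > 0`, i.e. in `U i`; for fixed `c` the supports of the `φ c i` have mutual distance `≥ 1/c`: at every point at most one is not 0, and they are locally finite, so
`s c = ∑ᶠ i, φ c i` is continuous.  Every `q` is in some `A c i` (`i` the least index with `q ∈ U i`), so `s c q > 0` for some `c`.  CTK for `s` gives `χ c`, locally finite; `ψ c i = φ c i * (χ c) ^ 2` (nonnegative): locally finite over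
`ℕ × I`; for every `q` there is `c` with `χ c q ≠ 0`, so `s c q ≠ 0`, so `φ c i q ≠ 0` for some `i`. -/
def StoStmt : Prop := ∀ (Q I : Type) [TopologicalSpace Q] [TopologicalSpace.MetrizableSpace Q]
  (U : I → Set Q), (∀ i, IsOpen (U i)) → (∀ q, ∃ i, q ∈ U i) →
  ∃ ψ : ℕ → I → C(Q, ℝ), (∀ c i q, 0 ≤ ψ c i q) ∧ (∀ c i q, ψ c i q ≠ 0 → q ∈ U i) ∧
    (∀ c i j q, ψ c i q ≠ 0 → ψ c j q ≠ 0 → i = j) ∧
    (LocallyFinite fun p : ℕ × I => Function.support (ψ p.1 p.2)) ∧ ∀ q, ∃ c i, ψ c i q ≠ 0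

/-- **QMA** (medium).  Quotients of metrizable abelian groups are metrizable.
PROOF. `H ⧸ L` is a Hausdorff topological group (`L` closed), and its neighbourhoods of 0 have a countable base (`QuotientAddGroup.nhds_eq`, images of a countable base of `H`; Mathlib has
`QuotientAddGroup.nhds_zero_isCountablyGenerated` or the like).  With the uniformity `IsTopologicalAddGroup.toUniformSpace` (countably generated) use `UniformSpace.metrizableSpace`. -/
def QmaStmt : Prop := ∀ (H : Type) [AddCommGroup H] [TopologicalSpace H] [IsTopologicalAddGroup H]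
  [TopologicalSpace.MetrizableSpace H] (L : AddSubgroup H), IsClosed (L : Set H) →
  TopologicalSpace.MetrizableSpace (H ⧸ L)

/-- **SID** (easy-medium).  A Sidon sequence.
PROOF. Choose `d n` by recursion outside the finitely many translates `d m + U` (`m < n`) and `d r' - d r + d s + U`, `r, r', s < n` of `U`.  First claim: `U` is symmetric.  Second claim: let
`s < s'`, `r < r'` and `(d s' - d s) - (d r' - d r) ∈ U`.  If `s' ≠ r'`, say `r' < s'` (otherwise exchange, `U = -U`): `d s' ∈ d r' - d r + d s + U` with indices `< s'`, contradiction.  So `s' = r'`, and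
`d r - d s ∈ U` gives `r = s` by the first claim. -/
def SidStmt : Prop := ∀ (H : Type) [AddCommGroup H] (U : Set H), (∀ x ∈ U, -x ∈ U) →
  (∀ F : Finset H, ∃ h : H, ∀ g ∈ F, h - g ∉ U) →
  ∃ d : ℕ → H, (∀ s s', s ≠ s' → d s - d s' ∉ U) ∧
    ∀ s s' r r', s < s' → r < r' → (d s' - d s) - (d r' - d r) ∈ U → s = r ∧ s' = r'

/-- the index `m` is active on the coset of `h` -/
def Act {H : Type} [AddCommGroup H] [TopologicalSpace H] (L : AddSubgroup H) (χ : ℕ → C(H, ℝ))
    (m : ℕ) (h : H) : Prop := ∃ z ∈ L, χ m (h + z) ≠ 0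

/-- The pieces: `χ` is a countable locally finite partition (squares), the piece `m` at `h` is in
`ξ m h + V + l m`, `l m ∈ L`, where the centre `ξ m h` depends only on the coset of `h`, and locally there are finitely many centres. -/
def Pieces {H : Type} [AddCommGroup H] [TopologicalSpace H] (L : AddSubgroup H) (V : Set H)
    (χ : ℕ → C(H, ℝ)) (l : ℕ → H) (ξ : ℕ → H → H) : Prop :=
  (∀ m, l m ∈ L) ∧ (LocallyFinite fun m => Function.support (χ m)) ∧
  (∀ h, ∑ᶠ m, (χ m h) ^ 2 = 1) ∧ (∀ m h, χ m h ≠ 0 → h - ξ m h - l m ∈ V) ∧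
  (∀ m h, ∀ z ∈ L, ξ m (h + z) = ξ m h) ∧
  ∀ h, ∃ W ∈ nhds h, {x : H | ∃ m, ∃ h' ∈ W, Act L χ m h' ∧ ξ m h' = x}.Finite

/-- **PCS** (medium-strong; uses STO, CTK, QMA).  Existence of the pieces.
PROOF. `Q = H ⧸ L` is metrizable (QMA), `π : H → Q` continuous and open.  Let `e : H → [0, 1]` be continuous, `e 0 = 1`, `e = 0` off `V` (completely regular), `V₁` an open symmetric neighbourhood of 0 with
`V₁ + V₁ ⊆ {e > 0}`.  STO for the cover `π (x + V₁)`, `x ∈ H`: `ψ c x`.  Let `l j` be a dense sequence of `L` (the range of a dense sequence; `L` is not empty).  `φ c j h = ∑ᶠ x, ψ c x (π h) * e (h - x - l j)` (at most one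
summand is not 0; continuous, locally finite).  For every `h`: `ψ c x (π h) ≠ 0` for some `c`, `x`, so `h = x + v + z`, `v ∈ V₁`, `z ∈ L`, and `z ∈ l j + V₁` for some `j`, so `e (h - x - l j) > 0` and `φ c j h > 0`.  CTK for the
family `φ c j` enumerated by `m = Nat.pair c j`: `χ m`.  `ξ m h` = the unique `x` with `ψ c x (π h) ≠ 0` (0 if there is none), it depends on `π h` only.  `Act m h'` implies `ψ c (ξ m h') (π h') ≠ 0`, and near `π h`
only finitely many `(c, x)` have `ψ c x ≠ 0` (local finiteness; `W` = the preimage). -/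
def PcsStmt : Prop := ∀ (H : Type) [AddCommGroup H] [TopologicalSpace H] [IsTopologicalAddGroup H]
  [TopologicalSpace.MetrizableSpace H] (L : AddSubgroup H), IsClosed (L : Set H) →
  TopologicalSpace.SeparableSpace L → ∀ V ∈ nhds (0 : H),
  ∃ (χ : ℕ → C(H, ℝ)) (l : ℕ → H) (ξ : ℕ → H → H), Pieces L V χ l ξ

/-- **THE** (medium; uses QMA).  A continuous bound for the levels.
PROOF. `Q = H ⧸ L` is metrizable, so paracompact and normal.  For `q : Q` let `t q` be the convex set of the `r : ℝ` with `N (ξ m h) (ξ m' h) ≤ r` for all `h` with `π h = q` and all `m`, `m'` active on the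
coset of `h`.  Locally: let `W` be the neighbourhood of `h₀` from `Pieces`; `π W` is a neighbourhood of `π h₀`; for `q' = π h'`, `h' ∈ W`, and every other `h` with `π h = q'` the centres and `Act` are the
same as for `h'` (`h = h' + z`), so `r` = the maximum of `N` on the finite set of centres of `W` is in `t q'`.  `exists_continuous_forall_mem_convex_of_local_const` gives `θ₀ : C(Q, ℝ)`; `θ = θ₀ ∘ π`. -/
def TheStmt : Prop := ∀ (H : Type) [AddCommGroup H] [TopologicalSpace H] [IsTopologicalAddGroup H]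
  [TopologicalSpace.MetrizableSpace H] (L : AddSubgroup H), IsClosed (L : Set H) →
  ∀ (V : Set H) (χ : ℕ → C(H, ℝ)) (l : ℕ → H) (ξ : ℕ → H → H), Pieces L V χ l ξ →
  ∀ N : H → H → ℕ, ∃ θ : C(H, ℝ), (∀ h, ∀ z ∈ L, θ (h + z) = θ h) ∧
    ∀ h m m', Act L χ m h → Act L χ m' h → (N (ξ m h) (ξ m' h) : ℝ) ≤ θ h

/-- **ABC** (STRONG; uses SLO, SID, PCS, THE).  Infinitely many copies.
PROOF. Let `U` be a symmetric neighbourhood of 0 with no finite `F` with `F + U = H`, `V` a symmetric neighbourhood with `V + V + V + V ⊆ U`, `d` from SID, `L` the closure of the subgroup generated by `d`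
(closed, separable: the closure of a countable set), `χ`, `l`, `ξ` from PCS.  Let `s (m, n, k) = Nat.pair m (Nat.pair n k)` (injective).  For `x, x' ∈ H` there are only finitely many (at most 2) pairs `(s, s')`, `s ≠ s'`, with
`x - x' ∈ d s' - d s + V + V`: for `s < s'` two such pairs are equal by SID (`V + V + V + V ⊆ U`), the same for `s > s'` (with `x' - x`).  `N x x' = 2 +` the maximum of the last components `k`, `k'` of the triples
coded by the `s`, `s'` of these pairs.  `θ` from THE.  `θ h ≥ 2` for all `h` (some `χ m h ≠ 0`).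
`a n (m, k) h = sqrt (max 0 (1 - |θ h - k|)) * χ m h`, `τ n (m, k) h = h + (d s - l m)` with `s = s (m, n, k)`, `B = ℕ × ℕ`.  Hypotheses of SLO: (1) locally finite over `(m, k)` for fixed `n` (`θ` continuous).
(2) `∑ (max 0 (1 - |θ h - k|)) = 1` (`θ h ≥ 1`) and `∑ (χ m h) ^ 2 = 1`.  (3) Let `a β h ≠ 0`, `a β' h' ≠ 0`, `h + (d s - l m) = h' + (d s' - l m')`.  `h' - h ∈ L`, so `θ h = θ h'`,
`ξ m' h' = ξ m' h`, both indices are active at `h`.  `h - ξ m h - l m ∈ V` and `h' - ξ m' h - l m' ∈ V` give `ξ m h - ξ m' h ∈ d s' - d s + V + V`.  If `s ≠ s'`: `k ≤ N (ξ m h) (ξ m' h) - 2 ≤ θ h - 2`, but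
`a β h ≠ 0` gives `k > θ h - 1`: contradiction.  So `s = s'`, the triples are equal.  (4) Landing sets are locally finite: let `h₀`, `W` from `Pieces`, and `h'' ∈ W ∩ (h₀ + V)`, `h'' = h + (d s - l m)`, `a β h ≠ 0`: `m` is active at `h''`
(`h'' - h ∈ L`), `x = ξ m h''` is in a finite set, `h - x - l m ∈ V` gives `d s ∈ h₀ - x + V + V`, and for given `x` at most one `s` satisfies this (SID, first claim).  So finitely many triples. -/
def AbcStmt : Prop := ∀ (H : Type) [AddCommGroup H] [TopologicalSpace H] [IsTopologicalAddGroup H]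
  [TopologicalSpace.MetrizableSpace H], (∃ U ∈ nhds (0 : H), ∀ F : Finset H, ∃ h, ∀ g ∈ F, h - g ∉ U) →
  Compl (ℕ → ↥(Cp H)) ↥(Cp H)

/-- **AB2** (easy-medium; uses ABC, PEL, CEX, CPE, BRI).  OUTPUT: abelian groups which are not precompact are l-stable.
PROOF. `E = (ℕ → Cp H)`, `E ≃ (ℕ → E)`; ABC: `Compl E (Cp H)`; `Compl (Cp H) E` (coordinate 0).  PEL (1): `Cp H ≃ E`.  The rest as in NP2.  The statement is for a multiplicative commutative group `H`:
apply it to `Additive H` (same topology), `h - g ∈ U` is `g⁻¹ * h ∈ U` (up to commutativity): `h ∉ g • U`. -/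
def Ab2Stmt : Prop := ∀ (H : Type) [Group H] [TopologicalSpace H] [IsTopologicalGroup H]
  [TopologicalSpace.MetrizableSpace H], (∀ a b : H, a * b = b * a) →
  (∃ U ∈ nhds (1 : H), ∀ F : Finset H, (⋃ g ∈ F, g • U) ≠ Set.univ) → LEq H (H × ℕ) ∧ LStable H

end Pool.Agent.LSG
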