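import Pool.Agent.LSG.StmtsD

/-!
# Squad LSG (MP_005a41_gt), block W: metrizable groups (not abelian) of almost every density

THEOREM.  Let `H` be a metrizable topological group which is not precompact and whose density character is countable or of uncountable
cofinality.  Then `H` is l-equivalent to `H × ℕ`, and l-stable.
-/

set_option autoImplicit false

open MeasureTheory Set Topology
open scoped BigOperators Pointwise

namespace Pool.Agent.LSG

/-- **NPK** (medium).  A maximal discrete family of translates (generalises NPC, Helper86_LSG/NPC.lean).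
PROOF. `V₀ = V ∩ V⁻¹`.  Choose a neighbourhood `W₁` of 1 with `W₁ = W₁⁻¹`, `W₁ W₁ W₁ W₁ ⊆ V₀` and a closed neighbourhood `W ⊆ W₁` of 1.  Let `S` be a maximal subset of `H` with
`g⁻¹ * h ∉ V₀` for all `g ≠ h` in `S` (`zorn_subset`).  For every `h` there is `g ∈ S` with `g⁻¹ * h ∈ V₀` (`h` itself if `h ∈ S`; otherwise maximality and `V₀ = V₀⁻¹`): `S V = H`.
For every `x` the neighbourhood `x W₁` meets at most one `g W`, `g ∈ S`: `x w = g v`, `x w' = h v'` give `g⁻¹ h = v w⁻¹ w' v'⁻¹ ∈ V₀`; this also gives disjointness. -/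
def NpkStmt : Prop :=
  ∀ (H : Type) [Group H] [TopologicalSpace H] [IsTopologicalGroup H] [T2Space H] (V : Set H),
    V ∈ nhds (1 : H) → ∃ S W : Set H, W ∈ nhds (1 : H) ∧ IsClosed W ∧
      (∀ g ∈ S, ∀ h ∈ S, g ≠ h → Disjoint (g • W) (h • W)) ∧
      (LocallyFinite fun g : S => (g : H) • W) ∧ (⋃ g ∈ S, g • V) = Set.univ

/-- **CVK** (easy-medium: copy of CVR, Helper72_LSG/CVR.lean, with an arbitrary index set).
PROOF. `H = ⋃_(d ∈ D) d • interior V` (`D` dense: `x (interior V)⁻¹` is a neighbourhood of `x`).  A partition of unity `ρ_d`, `d ∈ D`, with `tsupport ρ_d ⊆ d • interior V` (metrizable: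
`PartitionOfUnity.exists_isSubordinate`).  `i f d v = f (d * v)`, `p F x = ∑ᶠ d, ρ_d x * F_d (d⁻¹ x)`, as in CVR. -/
def CvkStmt : Prop :=
  ∀ (H : Type) [Group H] [TopologicalSpace H] [IsTopologicalGroup H]
    [TopologicalSpace.MetrizableSpace H] (V D : Set H), V ∈ nhds (1 : H) → Dense D →
    Compl ↥(Cp H) (D → ↥(Cp V))

/-- **CCK** (easy-medium: copy of CCV, Helper66_LSG/CCV.lean, with an arbitrary index set; uses CEX, CPE, DUG).
PROOF. `Z = ⋃_(g ∈ S) g • W` is closed, homeomorphic to `Σ g : S, W`; DUG, CEX (1), CPE (1), (3). -/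
def CckStmt : Prop :=
  ∀ (H : Type) [Group H] [TopologicalSpace H] [IsTopologicalGroup H]
    [TopologicalSpace.MetrizableSpace H] (W S : Set H), IsClosed W →
    (∀ g ∈ S, ∀ h ∈ S, g ≠ h → Disjoint (g • W) (h • W)) →
    (LocallyFinite fun g : S => (g : H) • W) → Compl (S → ↥(Cp W)) ↥(Cp H)

/-- **CFA** (medium).  The density is attained by a neighbourhood.
PROOF. Let `U` be the neighbourhood of the third hypothesis.  If `D` is countable, `V = U`: a family `F` with `F U = H` is infinite, so `#D ≤ ℵ₀ ≤ #F`.  Otherwise let `V_n ⊆ U` be a countable base of symmetric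
neighbourhoods of 1 (metrizable, first countable).  Suppose that for every `n` there is `F_n` with `F_n V_n = H` and `#F_n < #D`.  Then `⋃ F_n` is dense (`h ∈ f V_n` gives `f ∈ h V_n`), and
`#(⋃ F_n) < #D` because the cofinality of `#D` is uncountable (`Cardinal.sum_lt_of_isRegular` is for regular cardinals; use `Cardinal.iSup_lt_of_lt_cof_ord` or the like: the supremum `s` of the `#F_n` is `< #D`, and
`#(⋃ F_n) ≤ ℵ₀ * s < #D`).  This contradicts the minimality of `D`.  So some `V = V_n` works; `F V = H` implies `F U = H`, so `F` is not finite. -/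
def CfaStmt : Prop :=
  ∀ (H : Type) [Group H] [TopologicalSpace H] [IsTopologicalGroup H]
    [TopologicalSpace.MetrizableSpace H] (D : Set H), Dense D →
    (∀ D' : Set H, Dense D' → Cardinal.mk D ≤ Cardinal.mk D') →
    (D.Countable ∨ Cardinal.aleph0 < (Cardinal.mk D).ord.cof) →
    (∃ U ∈ nhds (1 : H), ∀ F : Finset H, (⋃ g ∈ F, g • U) ≠ Set.univ) →
    ∃ V ∈ nhds (1 : H), (∀ F : Set H, (⋃ g ∈ F, g • V) = Set.univ → Cardinal.mk D ≤ Cardinal.mk F) ∧
      ∀ F : Set H, (⋃ g ∈ F, g • V) = Set.univ → F.Infinite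

/-- **AT2** (medium; uses NPK, CVK, CCK, PEL, CEX, CPE, BRI).  OUTPUT.
PROOF. `S`, `W` from NPK for `V`: `S` is infinite, `#D ≤ #S`.  `E = (S → Cp W)`.  CCK: `Compl E (Cp H)`.  CVK: `Compl (Cp H) (D → Cp W)`, and an injection `D → S` makes `D → Cp W` complemented in `E` (extension by 0,
restriction), so `Compl (Cp H) E`.  `S ≃ ℕ × S` (infinite), so `E ≃ (ℕ → E)`.  PEL (1): `Cp H ≃ E`.  The rest as in NP2 (Helper21_LSG/NP2.lean): `Cp H ≃ (ℕ → Cp H) ≃ Cp (H × ℕ)`; l-stable: BRI, CEX (1), PEL (2), CPE (2). -/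
def At2Stmt : Prop :=
  ∀ (H : Type) [Group H] [TopologicalSpace H] [IsTopologicalGroup H]
    [TopologicalSpace.MetrizableSpace H] (V D : Set H), V ∈ nhds (1 : H) → Dense D →
    (∀ F : Set H, (⋃ g ∈ F, g • V) = Set.univ → Cardinal.mk D ≤ Cardinal.mk F) →
    (∀ F : Set H, (⋃ g ∈ F, g • V) = Set.univ → F.Infinite) →
    LEq H (H × ℕ) ∧ LStable H

end Pool.Agent.LSG
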