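import Pool.Agent.LSG.Defs

/-!
# Squad LSG: the rows

THEOREM (part B).  There is a dense subgroup `G` of the Cantor group `K = ℕ → ZMod 2` such that for all clopen subsets `A`, `B` of
`G × Fin k`: if `dm A < dm B` there is no continuous linear map of `C_p(A)` onto a dense subspace of `C_p(B)`.

In `K` we have `x + x = 0`, `- x = x`.
-/

set_option autoImplicit false

open MeasureTheory Set Topology

namespace Pool.Agent.LSG

/-! ## Block 1: the group -/

/-- **MUK** (easy-medium).  Haar measure.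
PROOF. `K` is a compact Hausdorff second countable group with its Borel σ-algebra (`Pi.borelSpace`).  `addHaarMeasure_self` for
`(⊤ : TopologicalSpace.PositiveCompacts K)` gives `mu univ = 1`; invariance: `measure_preimage_add`.  All points have the same measure `t`
(invariance), `K` is infinite, so `n * t ≤ 1` for all `n` and `t = 0`.  Inner regularity: `mu` is regular and finite
(`MeasurableSet.exists_lt_isCompact`). -/
def MukStmt : Prop := IsProbabilityMeasure mu ∧
  (∀ (x : K) (E : Set K), mu ((fun y => x + y) ⁻¹' E) = mu E) ∧ (∀ x : K, mu {x} = 0) ∧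
  ∀ E : Set K, MeasurableSet E → 0 < mu E → ∃ C, C ⊆ E ∧ IsCompact C ∧ 0 < mu C

/-- **SPL** (easy).  Splitting a set by a map with null fibres.
PROOF. Suppose not.  For every `n` take `D = {y | y n = 0}`, whose complement is `{y | y n = 1}`: one of the sets `E ∩ {x | φ x n = 0}`,
`E ∩ {x | φ x n = 1}` is null; let `y n` be the other value, so `E ∩ {x | φ x n ≠ y n}` is null.  Then `E` is contained in the union of
`E ∩ φ ⁻¹' {y}` and of these countably many null sets, so it is null. -/
def SplStmt : Prop := ∀ (E : Set K) (φ : K → K), MeasurableSet E → Measurable φ → 0 < mu E →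
  (∀ y, mu (E ∩ φ ⁻¹' {y}) = 0) →
  ∃ D : Set K, MeasurableSet D ∧ 0 < mu (E ∩ φ ⁻¹' D) ∧ 0 < mu (E \ φ ⁻¹' D)

/-- **MYC** (medium; uses MUK SPL).  A Cantor set on which `φ` and `ψ` are injective.
PROOF. STEP: every measurable `F ⊆ E` of positive measure contains compact sets `F0`, `F1` of positive measure such that `φ '' F0`, `φ '' F1` are
disjoint and `ψ '' F0`, `ψ '' F1` are disjoint.  (SPL for `φ` on `F`: `A0 = F ∩ φ ⁻¹' D`, `A1 = F \ φ ⁻¹' D`, both positive.  SPL for `ψ` on `A0`:
`D'` such that `A0 ∩ ψ ⁻¹' D'` and `A0 \ ψ ⁻¹' D'` are positive.  One of `A1 ∩ ψ ⁻¹' D'`, `A1 \ ψ ⁻¹' D'` is positive; take it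
and the other kind of part of `A0`; inner regularity (MUK).  The fibres are null on every subset of `E`.)  By recursion on the length: compact sets
`F_s`, `s` a finite 0-1-sequence, with `F_(s0), F_(s1) ⊆ F_s` as in STEP.  For `σ : ℕ → Bool` the sets `F_(σ|n)` are nested nonempty compact sets;
let `P σ` be a point of their intersection (`IsCompact.nonempty_iInter_of_sequence_nonempty_isCompact_isClosed`).  If `σ ≠ τ` let `s` be their longest common initial
segment: `P σ` and `P τ` are in different ones of `F_(s0)`, `F_(s1)`, so their images under `φ` are different, and under `ψ`. -/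
def MycStmt : Prop := ∀ (E : Set K) (φ ψ : K → K), MeasurableSet E → Measurable φ → Measurable ψ →
  0 < mu E → (∀ y, mu (E ∩ φ ⁻¹' {y}) = 0) → (∀ y, mu (E ∩ ψ ⁻¹' {y}) = 0) →
  ∃ P : (ℕ → Bool) → K, (∀ σ, P σ ∈ E) ∧ Function.Injective (fun σ => φ (P σ)) ∧
    Function.Injective (fun σ => ψ (P σ))

/-- **TRA** (STRONG; no measure theory).  The transfinite construction.
PROOF. Well-order `I` so that every initial segment has cardinality less than the continuum `𝔠` (`Cardinal.ord_eq`, `Cardinal.card_typein_lt`; if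
`#I < 𝔠` any well-order does).  `P i` is injective, because `φ i ∘ P i` is.  Choose `x i` by recursion: let `G_i = closure {x j | j < i}` and
`Y_i = {φ j (x j) | j < i}`; both have cardinality `< 𝔠` (the closure of a set `Z` has at most `max (#Z) ℵ₀` elements).  Each of the following conditions excludes fewer than
`𝔠` many `σ : ℕ → Bool` (by injectivity), and there are `𝔠` many, so there is a `σ` with: (a) `P i σ` is not of the form `g + y`, `g ∈ G_i`, `y ∈ Y_i`; (b) `φ i (P i σ) ∉ G_i`;
(c) `φ i (P i σ) - P i σ ∉ G_i`.  Put `x i = P i σ`.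
CLAIM: `φ j (x j) ∉ closure {x l | l ≤ i}` for `j ≤ i`.  Induction on `i`.  `closure {x l | l ≤ i}` is the union of `G_i` and `x i + G_i` (because `x + x = 0`).  Let `z = φ j (x j)`.  If
`z ∈ G_i`: for `j = i` against (b); for `j < i`, `z` is in the closure of finitely many `x l`, `l < i`, hence in `closure {x l | l ≤ i'}` for some
`i' < i` with `j ≤ i'`, against the induction hypothesis.  If `z = x i + g`: for `j = i` against (c) (`φ i (x i) - x i = g`), for `j < i` against (a) (`x i = z - g`).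
`G = closure {x i | i ∈ I}`: if `φ j (x j) ∈ G` then it is in the closure of finitely many of the `x l`, so in `closure {x l | l ≤ i}` for some `i ≥ j`
(if `I` is empty, anything will do). -/
def TraStmt : Prop := ∀ (I : Type) (P : I → (ℕ → Bool) → K) (φ : I → K → K),
  Cardinal.mk I ≤ Cardinal.continuum → (∀ i, Function.Injective fun σ => φ i (P i σ)) →
  (∀ i, Function.Injective fun σ => φ i (P i σ) - P i σ) →
  ∃ G : AddSubgroup K, ∀ i, ∃ σ, P i σ ∈ G ∧ φ i (P i σ) ∉ G

/-- **CRD** (easy-medium).  There are at most continuum many pairs (measurable set, measurable map).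
PROOF. The σ-algebra of `K` is countably generated, so there are at most `𝔠` measurable sets (`MeasurableSpace.cardinal_measurableSet_le_continuum`,
with `MeasurableSpace.countableGeneratingSet`).  `(E, φ) ↦ (E, fun n => {x | φ x n = 1})` is injective (an element of `ZMod 2` is `0` or `1`), and `𝔠 * 𝔠 ^ ℵ₀ = 𝔠`. -/
def CrdStmt : Prop :=
  Cardinal.mk {p : Set K × (K → K) // MeasurableSet p.1 ∧ Measurable p.2} ≤ Cardinal.continuum

/-- **CON** (medium; uses MUK MYC TRA CRD).  The group.
PROOF. Let `I` be the type of all pairs `(E, φ)` as in CRD for which there is `P : (ℕ → Bool) → K` with values in `E` and both `φ ∘ P` and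
`fun σ => φ (P σ) - P σ` injective; choose such a `P`, apply TRA: for every pair in `I` there is `x ∈ G ∩ E` with `φ x ∉ G`.
`full`: let `φ x = fun n => x (n + 1)`.  The fibre of `φ` over `y` has two points, the fibre of `φ - id` over `y` too (`x (n + 1) = x n + y n`).  Finite
sets are null (MUK), so MYC (with `ψ x = φ x - x`) gives `P`, the pair is in `I`, and `G` meets `E`.
`star`: the set `S1` of all `s` with `0 < mu (E ∩ φ ⁻¹' {s})` is countable (disjoint sets of positive measure in a finite measure space: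
`Measure.countable_meas_pos_of_disjoint_iUnion` or the like), the same for `ψ x = φ x - x` and `S2`.  By `full` every `s ∈ S1` is
`φ x` with `x ∈ G ∩ E`, so `s ∈ G`; every `s ∈ S2` is `φ x - x`, so `s ∈ G`.  `S = S1 ∪ S2`.  Let `E' = {x ∈ E | φ x ∉ S, φ x - x ∉ S}` (measurable).
The fibres of `φ` and `ψ` on `E'` are null (for `s ∈ S` empty, otherwise null because `s` is not in `S1`, `S2`).  If `0 < mu E'`, MYC gives `P`, the pair
`(E', φ)` is in `I`, and some `x ∈ G ∩ E'` has `φ x ∉ G`, against the hypothesis. -/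
def ConStmt : Prop := ∃ G : AddSubgroup K, Big G

/-- **DEN** (easy).  `G` is dense.
PROOF. Every nonempty open set of `K` is measurable and has positive measure (`IsAddHaarMeasure` gives `IsOpenPosMeasure`), so `full` applies. -/
def DenStmt : Prop := ∀ G : AddSubgroup K, Big G → Dense (G : Set K)

/-- **OUT** (easy).  The outer measure of a trace on `G`.
PROOF. Let `W = toMeasurable mu {x | x ∈ G ∧ x ∈ E}`: measurable, it contains the trace and has the same measure.  `E \ W` is measurable and does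
not meet `G`, so it is null by `full`, and `mu E ≤ mu W + mu (E \ W)`. -/
def OutStmt : Prop := ∀ G : AddSubgroup K, Big G → ∀ E : Set K, MeasurableSet E →
  mu {x | x ∈ G ∧ x ∈ E} = mu E

/-! ## Block 2: supports -/

/-- **RPV** (easy-medium).  Every continuous linear map of `C_p(X)` to `C_p(Y)` is given by finitely supported coefficients.
PROOF. Fix `y`, `Λ f = T f y`.  By continuity at `0` there are a finite set `F` of points and `ε > 0` such that `|f x| < ε` for `x ∈ F` implies `|Λ f| < 1`.
If `f = 0` on `F` then `|Λ (n • f)| < 1` for all `n`, so `Λ f = 0`.  So the intersection of the kernels of the evaluations at `x ∈ F` is contained in the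
kernel of `Λ`, and `Λ` is a linear combination of these evaluations (`mem_span_of_iInf_ker_le_ker`). -/
def RpvStmt : Prop := ∀ (X Y : Type) [TopologicalSpace X] [TopologicalSpace Y]
  (T : C(X, ℝ) →ₗ[ℝ] C(Y, ℝ)), PCont (fun f => T f) → ∃ c : Y → X →₀ ℝ, Rep T c

/-- **IND** (easy-medium).  Dense range implies that the coefficients are linearly independent.
PROOF. Let `∑ y ∈ F, s y • c y = 0` and `y₀ ∈ F`.  There is `g : C(Y, ℝ)` with `g y₀ = 1` and `g = 0` on `F \ {y₀}` (Urysohn,
`exists_continuous_zero_one_of_isClosed`).  For every `f`: `∑ y ∈ F, s y * T f y = 0` (`Rep`, linearity of `Finsupp.sum`).  For `ε > 0` choose `f` with `|T f y - g y| < ε` on `F`: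
`|s y₀| = |∑ s y * g y| = |∑ s y * (g y - T f y)| ≤ ε * ∑ |s y|`.  So `s y₀ = 0`. -/
def IndStmt : Prop := ∀ (X Y : Type) [TopologicalSpace X] [TopologicalSpace Y]
  [TopologicalSpace.MetrizableSpace Y] (T : C(X, ℝ) →ₗ[ℝ] C(Y, ℝ)) (c : Y → X →₀ ℝ), Rep T c →
  (∀ (g : C(Y, ℝ)) (F : Finset Y) (ε : ℝ), 0 < ε → ∃ f : C(X, ℝ), ∀ y ∈ F, |T f y - g y| < ε) →
  LinearIndependent ℝ c

/-- **BOX** (easy-medium).  The boxes are a countable base of clopen sets.
PROOF. `Ix k` is a product of a countable sigma type of finite types with a finite type.  A box is defined by finitely many conditions on discrete coordinates.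
Base: `G × Fin k` has the topology induced by `K × Fin k`, a neighbourhood of `(x, i)` contains all `(y, i)` for which `y` agrees with `x` in the
first `n` coordinates, for some `n` (`isOpen_pi_iff`). -/
def BoxStmt : Prop := ∀ (G : AddSubgroup K) (k : ℕ), Countable (Ix k) ∧
  (∀ v : Ix k, IsClopen (box (G := G) v)) ∧
  ∀ U : Set (G × Fin k), IsOpen U → ∀ p ∈ U, ∃ v : Ix k, p ∈ box (G := G) v ∧ box (G := G) v ⊆ U

/-- **TRC** (easy).  Open sets have measurable traces.
PROOF. `{x : G | (x, i) ∈ U}` is open in the subtype `G`, so it is the preimage of an open set of `K`. -/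
def TrcStmt : Prop := ∀ (G : AddSubgroup K) (k : ℕ) (U : Set (G × Fin k)), IsOpen U →
  ∀ i : Fin k, ∃ E : Set K, MeasurableSet E ∧ ∀ (x : K) (hx : x ∈ G),
    x ∈ E ↔ ((⟨x, hx⟩ : G), i) ∈ U

/-- **MSB** (medium-strong; uses BOX TRC).  Measurability of isolated support points.
PROOF. Call a set `Z` of points of `B` GOOD if for every `i` there is a measurable `E` with `x ∈ E ↔ ∃ hB, ⟨((x, hx), i), hB⟩ ∈ Z` for all `x ∈ G`.  `B` is good
and open subsets of `B` are good (TRC; `B` is open, so they are images of open sets), and the good sets are closed under complements (in `B`), countable unions and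
intersections.  For a box `u` the function `1_u` (indicator of `{a : A | a.1 ∈ box u}`) is in `C(A, ℝ)`, `T 1_u` is continuous on `B`, and `T 1_u b` is the sum of the values of
`c b` on the box.  Let `Z_u = {b | ∃ a, c b a ≠ 0 ∧ a.1 ∈ box u}`.  Then `Z_u` is the union of the open sets `{b | T 1_w b ≠ 0}` over all `w` with
`box w ⊆ box u`: if `a` is such a point, BOX gives a box `w` with `a.1 ∈ box w ⊆ box u` without the other points of the (finite) support, and `T 1_w b = c b a ≠ 0`.  So `Z_u` is good.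
`{b | ∃ p, Only (c b) v p}` is the intersection of `Z_v` with the complements of `Z_w ∩ Z_w'` over all `w`, `w'` with `box w`, `box w'` disjoint and contained in `box v` (two different support points
in `box v` are separated by two such boxes).  And `{b | ∃ p, Only (c b) v p ∧ p.1 ∈ box w}` is its intersection with the union of the `Z_u`, `box u ⊆ box v ∩ box w`. -/
def MsbStmt : Prop := ∀ (G : AddSubgroup K) (k : ℕ) (A B : Set (G × Fin k)), IsClopen A →
  IsClopen B → ∀ (T : C(A, ℝ) →ₗ[ℝ] C(B, ℝ)) (c : B → A →₀ ℝ), Rep T c →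
  ∀ (v w : Ix k) (i : Fin k), ∃ E : Set K, MeasurableSet E ∧ ∀ (x : K) (hx : x ∈ G),
    x ∈ E ↔ ∃ hB : ((⟨x, hx⟩ : G), i) ∈ B, ∃ p : A, Only (c ⟨_, hB⟩) v p ∧ p.1 ∈ box (G := G) w

/-- **PHI** (medium; uses MSB).  The isolated support point as a measurable function.
PROOF. `E` is the set of MSB for `v`, `v` (`Only` contains `p.1 ∈ box v`).  For `n : ℕ` let `W_n` be the (countable) set of the `w : Ix k` with
`w.1.1 = n + 1` and last value `1`: `p.1.1 n = 1` iff `p.1 ∈ box w` for some `w ∈ W_n`.  Let `E_n` be the union over `w ∈ W_n` of the sets of MSB for `v`, `w`, and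
`φ x n = 1` if `x ∈ E_n`, `φ x n = 0` otherwise; `φ` is measurable (`measurable_pi_iff`).  For `x ∈ G` and `Only (c b) v p` (`p` is unique): `x ∈ E_n` iff `p.1.1 n = 1`. -/
def PhiStmt : Prop := ∀ (G : AddSubgroup K) (k : ℕ) (A B : Set (G × Fin k)), IsClopen A →
  IsClopen B → ∀ (T : C(A, ℝ) →ₗ[ℝ] C(B, ℝ)) (c : B → A →₀ ℝ), Rep T c →
  ∀ (v : Ix k) (i : Fin k), ∃ (E : Set K) (φ : K → K), MeasurableSet E ∧ Measurable φ ∧
    ∀ (x : K) (hx : x ∈ G),
      (x ∈ E ↔ ∃ hB : ((⟨x, hx⟩ : G), i) ∈ B, ∃ p : A, Only (c ⟨_, hB⟩) v p) ∧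
      ∀ (hB : ((⟨x, hx⟩ : G), i) ∈ B) (p : A), Only (c ⟨_, hB⟩) v p → φ x = (p.1.1 : K)

/-- **SUP** (medium; uses BOX TRC PHI).  The supports are translates, up to a null set.
PROOF. For `v : Ix k`, `i : Fin k` let `E_(v,i)`, `φ_(v,i)` be from PHI.  For `x ∈ G ∩ E_(v,i)` the value `φ x` is in `G` (first coordinate of a point of `G × Fin k`), so `Big.star`
gives a countable `S_(v,i) ⊆ G` and a null set `N_(v,i)`.  Take the unions `S`, `N` over the countably many `(v, i)`.  Let `b = ((x, hx), i)`, `x ∉ N`, `c b a ≠ 0`.  BOX, applied to the complement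
of the other support points, gives `v` with `Only (c b) v a`, so `x ∈ E_(v,i)`, `φ x = a.1.1`, and `a.1.1 ∈ S` or `a.1.1 - x ∈ S`.
Second part: `E` = the set of TRC for `B` and `i` minus the union over `v` of the measurable sets `{x ∈ E_(v,i) | φ x ∉ H ∧ φ x - x ∉ H}`: by the isolation of support
points, some `a` with `c b a ≠ 0`, `a.1.1 ∉ H`, `a.1.1 - x ∉ H` exists iff `x` is in one of these sets. -/
def SupStmt : Prop := ∀ (G : AddSubgroup K), Big G → ∀ (k : ℕ) (A B : Set (G × Fin k)),
  IsClopen A → IsClopen B → ∀ (T : C(A, ℝ) →ₗ[ℝ] C(B, ℝ)) (c : B → A →₀ ℝ), Rep T c →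
  (∃ S N : Set K, S.Countable ∧ S ⊆ G ∧ mu N = 0 ∧ ∀ b : B, (b.1.1 : K) ∉ N → ∀ a : A,
    c b a ≠ 0 → (a.1.1 : K) ∈ S ∨ (a.1.1 : K) - (b.1.1 : K) ∈ S) ∧
  ∀ H : Set K, H.Finite → ∀ i : Fin k, ∃ E : Set K, MeasurableSet E ∧ ∀ (x : K) (hx : x ∈ G),
    x ∈ E ↔ ∃ hB : ((⟨x, hx⟩ : G), i) ∈ B, ∀ a : A, c ⟨_, hB⟩ a ≠ 0 →
      (a.1.1 : K) ∈ H ∨ (a.1.1 : K) - x ∈ H

/-! ## Block 3: counting -/

/-- **CTL** (medium; uses MUK).  Cosets with more points of `B` than of `A`.
PROOF. For measurable `D` the function `x ↦ #{h ∈ H | x + h ∈ D} = ∑ h ∈ H, 1_D (x + h)` is measurable with integral `#H * mu D` (MUK).  So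
`Z = {x | ∑ i, #{h ∈ H | x + h ∈ A i} < ∑ i, #{h ∈ H | x + h ∈ B i}}` is measurable, and if it were null, integration of the opposite inequality
would give `#H * ∑ mu (B i) ≤ #H * ∑ mu (A i)`.  So `0 < mu Z`.  For a finite set `X` of points, `{z ∈ Z | ∀ x ∈ X, z - x ∉ H}` has the same measure (finite sets are null) and
contains a point of `G` by `full`; induction on `M`. -/
def CtlStmt : Prop := ∀ (G : AddSubgroup K), Big G → ∀ H : AddSubgroup K, (H : Set K).Finite →
  H ≤ G → ∀ (k : ℕ) (A B : Fin k → Set K), (∀ i, MeasurableSet (A i)) →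
  (∀ i, MeasurableSet (B i)) → ∑ i, mu (A i) < ∑ i, mu (B i) → ∀ M : ℕ, ∃ X : Finset K,
    (∀ x ∈ X, x ∈ G) ∧ X.card = M ∧ (∀ x ∈ X, ∀ y ∈ X, x - y ∈ H → x = y) ∧
    ∀ x ∈ X, ∑ i, Set.ncard {h : K | h ∈ H ∧ x + h ∈ A i}
      < ∑ i, Set.ncard {h : K | h ∈ H ∧ x + h ∈ B i}

/-- **EXH** (medium; uses SUP TRC OUT).  Exhaustion by finite subgroups.
PROOF. Let `S`, `N` be from SUP.  Let `s : ℕ → K` have range `S ∪ {0}`, `H_n = closure {s 0, ..., s n}`: finite (finitely generated, `x + x = 0`), contained in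
`G`, increasing.  Let `L n i` be the set of all `x` with `∃ hx hB, ∀ a, c ⟨((x, hx), i), hB⟩ a ≠ 0 → a.1.1 ∈ H_n ∨ a.1.1 - x ∈ H_n`; it increases with `n`.  Every `x ∈ sl B i` outside `N` is
in some `L n i` (the support is finite), so `mu (sl B i) ≤ mu N + mu (⋃ n, L n i) = ⨆ n, mu (L n i)` (continuity from below holds for arbitrary sets: `Monotone.measure_iUnion`).  As
`dm A < dm B`, there is `n` with `dm A < ∑ i, mu (L n i)` (monotone limits).  `H = H_n`, `A'` from TRC, `E` from SUP; `mu (A' i) = mu (sl A i)` and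
`mu (E i) = mu (L n i)` by OUT (`sl A i = {x | x ∈ G ∧ x ∈ A' i}`). -/
def ExhStmt : Prop := ∀ (G : AddSubgroup K), Big G → ∀ (k : ℕ) (A B : Set (G × Fin k)),
  IsClopen A → IsClopen B → dm A < dm B →
  ∀ (T : C(A, ℝ) →ₗ[ℝ] C(B, ℝ)) (c : B → A →₀ ℝ), Rep T c →
  ∃ (H : AddSubgroup K) (A' E : Fin k → Set K), (H : Set K).Finite ∧ H ≤ G ∧
    (∀ i, MeasurableSet (A' i)) ∧ (∀ i, MeasurableSet (E i)) ∧
    (∀ (i : Fin k) (x : K) (hx : x ∈ G), x ∈ A' i ↔ ((⟨x, hx⟩ : G), i) ∈ A) ∧
    (∀ (i : Fin k) (x : K) (hx : x ∈ G), x ∈ E i ↔ ∃ hB : ((⟨x, hx⟩ : G), i) ∈ B,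
      ∀ a : A, c ⟨_, hB⟩ a ≠ 0 → (a.1.1 : K) ∈ H ∨ (a.1.1 : K) - x ∈ H) ∧
    ∑ i, mu (A' i) < ∑ i, mu (E i)

/-- **MAI** (medium-strong; uses RPV IND EXH CTL).  THE RESULT OF PART B.
PROOF. Let `T` be as in `DMap`; RPV gives `c`, IND: `c` is linearly independent (`B` is metrizable: a subspace of a countable product of discrete spaces times `Fin k`).  EXH gives
`H`, `A'`, `E`; CTL with `M = k * #H + 1` gives `X`.  Let `R = {x + h | x ∈ X, h ∈ H} ⊆ G`, the sum is direct (different cosets).  Let `BB` be the finite set of the `b = ((y, hy), i) ∈ B` with `y ∈ R`,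
`y ∈ E i`: it has `∑ x ∈ X, ∑ i, #{h ∈ H | x + h ∈ E i}` elements.  Let `AA` be the finite set of the `a = ((y, hy), j) ∈ A` with `y ∈ R` or `y ∈ H`: it has at most
`∑ x ∈ X, ∑ i, #{h ∈ H | x + h ∈ A' i} + k * #H` elements.  So `#AA < #BB` by the choice of `X` (every `x ∈ X` contributes at least one more to `BB`).  For `b ∈ BB` the support of `c b` is contained in `AA` (by EXH; if
`a.1.1 - y ∈ H`, `y ∈ R`, then `a.1.1 ∈ R`).  So `#BB` linearly independent vectors are in a space of dimension `#AA < #BB` (`Finsupp.supported`, `LinearIndependent` and `Finsupp` of a finite set): a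
contradiction. -/
def MaiStmt : Prop := ∀ (G : AddSubgroup K), Big G → ∀ (k : ℕ) (A B : Set (G × Fin k)),
  IsClopen A → IsClopen B → dm A < dm B → ¬ DMap A B

end Pool.Agent.LSG
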