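import Mathlib

/-!
# Squad LSG (MP_005a41_gt): topological groups which are not linearly stable

Definitions.  `K = ℕ → ZMod 2` is the Cantor group with its Haar measure `mu`; `G` is an additive subgroup of `K` (a precompact
metrizable topological group, if it is dense), and the spaces are the clopen subsets `A` of `G × Fin k`.
`mu` of an arbitrary set is its outer measure.
-/

set_option autoImplicit false

open MeasureTheory Set Topology

namespace Pool.Agent.LSG

/-- the Cantor group -/
abbrev K : Type := ℕ → ZMod 2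

/-- Haar measure of `K`, with total mass one -/
noncomputable def mu : Measure K := Measure.addHaarMeasure ⊤

/-- `T` is continuous for the topologies of pointwise convergence (the same form as in the frozen statement) -/
def PCont {X Y : Type} [TopologicalSpace X] [TopologicalSpace Y] (T : C(X, ℝ) → C(Y, ℝ)) : Prop :=
  Continuous fun f : {g : X → ℝ // Continuous g} => ⇑(T ⟨f.1, f.2⟩)

/-- `C_p(X)` and `C_p(Y)` are linearly homeomorphic -/
def LEq (X Y : Type) [TopologicalSpace X] [TopologicalSpace Y] : Prop :=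
  ∃ T : C(X, ℝ) ≃ₗ[ℝ] C(Y, ℝ), PCont (fun f => T f) ∧ PCont (fun f => T.symm f)

/-- there is a continuous linear map from `C_p(X)` onto a dense subspace of `C_p(Y)` -/
def DMap (X Y : Type) [TopologicalSpace X] [TopologicalSpace Y] : Prop :=
  ∃ T : C(X, ℝ) →ₗ[ℝ] C(Y, ℝ), PCont (fun f => T f) ∧
    ∀ (g : C(Y, ℝ)) (F : Finset Y) (ε : ℝ), 0 < ε → ∃ f : C(X, ℝ), ∀ y ∈ F, |T f y - g y| < ε

/-- the linear map `T` is given by the finitely supported coefficients `c` -/
def Rep {X Y : Type} [TopologicalSpace X] [TopologicalSpace Y] (T : C(X, ℝ) →ₗ[ℝ] C(Y, ℝ))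
    (c : Y → X →₀ ℝ) : Prop := ∀ (f : C(X, ℝ)) (y : Y), T f y = (c y).sum fun x t => t * f x

/-- the slice `i` of a subset of `G × Fin k`, as a subset of `K` -/
def sl {G : AddSubgroup K} {k : ℕ} (A : Set (G × Fin k)) (i : Fin k) : Set K :=
  {x | ∃ h : x ∈ G, ((⟨x, h⟩ : G), i) ∈ A}

/-- the measure of a subset of `G × Fin k` (outer measure of the slices) -/
noncomputable def dm {G : AddSubgroup K} {k : ℕ} (A : Set (G × Fin k)) : ENNReal :=
  ∑ i, mu (sl A i)

/-- `G` meets every measurable set of positive measure, and a measurable map which maps a part of `G` to `G`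
is almost everywhere constant in `G` or a translation by an element of `G` (countably many pieces). -/
structure Big (G : AddSubgroup K) : Prop where
  full : ∀ E : Set K, MeasurableSet E → 0 < mu E → ∃ x ∈ G, x ∈ E
  star : ∀ (E : Set K) (φ : K → K), MeasurableSet E → Measurable φ →
    (∀ x ∈ G, x ∈ E → φ x ∈ G) →
    ∃ S : Set K, S.Countable ∧ S ⊆ G ∧ mu {x | x ∈ E ∧ φ x ∉ S ∧ φ x - x ∉ S} = 0

/-- indices of boxes: the first `n` coordinates and the slice -/
def Ix (k : ℕ) : Type := (Σ n : ℕ, (Fin n → ZMod 2)) × Fin k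

/-- boxes: the basic clopen subsets of `G × Fin k` -/
def box {G : AddSubgroup K} {k : ℕ} (v : Ix k) : Set (G × Fin k) :=
  {p | p.2 = v.2 ∧ ∀ i : Fin v.1.1, (p.1 : K) i = v.1.2 i}

/-- `p` is the only point of the support of `c` in the box `v` -/
def Only {G : AddSubgroup K} {k : ℕ} {A : Set (G × Fin k)} (c : A →₀ ℝ) (v : Ix k) (p : A) : Prop :=
  c p ≠ 0 ∧ p.1 ∈ box (G := G) v ∧ ∀ q : A, c q ≠ 0 → q.1 ∈ box (G := G) v → q = p

end Pool.Agent.LSG
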