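import Pool.Agent.LSG.Stmts

/-!
# Squad LSG (MP_005a41_gt), blocks T, H, Z, S

T: the algebra of the spaces `C_p`, topological groups which are not precompact are l-stable.
H: clopen subsets of `G × Fin k` with the same measure are homeomorphic.
Z: consequences of MAI (not l-stable, not S-stable).  S: `G × ℤ` is l-stable, but not S-stable.

RULES.  One file per row: `Pool/Agent/HelperNN_LSG/XXX.lean`, import `Pool.Agent.LSG.StmtsA`, namespace `Pool.Agent.LSG.HNN`, theorem
`xxx (the rows used, as hypotheses, in the order of the docstring) : XxxStmt`.  Never `convert`, `congr!`, straight double quotes.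
-/

set_option autoImplicit false

open MeasureTheory Set Topology
open scoped BigOperators Pointwise

namespace Pool.Agent.LSG

/-! ## Definitions -/

/-- `A` is l-embedded in `X` (the same form as in the frozen statement) -/
def LEmb {X : Type} [TopologicalSpace X] (A : Set X) : Prop :=
  ∃ φ : C(A, ℝ) →ₗ[ℝ] C(X, ℝ), PCont (fun f => φ f) ∧ ∀ (f : C(A, ℝ)) (a : A), φ f a.1 = f a

/-- `X` is l-stable -/
def LStable (X : Type) [TopologicalSpace X] : Prop := ∀ A : Set X, LEmb A → LEq X (X ⊕ A)

/-- `X` is S-stable (`OnePoint ℕ` is the convergent sequence) -/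
def SStable (X : Type) [TopologicalSpace X] : Prop := LEq (X × OnePoint ℕ) X

/-- `C_p(X)`: the continuous real functions on `X` as a subspace of the product `X → ℝ` (only used in the proofs) -/
def Cp (X : Type) [TopologicalSpace X] : Submodule ℝ (X → ℝ) where
  carrier := {f | Continuous f}
  add_mem' := by
    intro f g hf hg
    exact Continuous.add hf hg
  zero_mem' := continuous_const
  smul_mem' := by
    intro c f hf
    exact Continuous.const_smul hf c

/-- the same as `LEq` (row BRI), in the language of continuous linear equivalences -/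
def LEc (X Y : Type) [TopologicalSpace X] [TopologicalSpace Y] : Prop :=
  Nonempty (↥(Cp X) ≃L[ℝ] ↥(Cp Y))

/-- the same as `LEmb` (row BRI) -/
def LEmc {X : Type} [TopologicalSpace X] (A : Set X) : Prop :=
  ∃ φ : ↥(Cp A) →L[ℝ] ↥(Cp X), ∀ (f : ↥(Cp A)) (a : A), (φ f).1 a.1 = f.1 a

/-- `E` is (isomorphic to) a complemented subspace of `F` -/
def Compl (E F : Type) [AddCommGroup E] [Module ℝ E] [TopologicalSpace E] [AddCommGroup F]
    [Module ℝ F] [TopologicalSpace F] : Prop :=
  ∃ (i : E →L[ℝ] F) (p : F →L[ℝ] E), ∀ x, p (i x) = x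

/-- The clopen subgroup `G_n` of the elements of `G` whose first `n` coordinates are 0 -/
def Gc (G : AddSubgroup K) (n : ℕ) : Set G := {x | ∀ i < n, (x : K) i = 0}

/-! ## Block T -/

/-- **BRI** (easy-medium).  The two forms of the definitions.
PROOF. `f ↦ ⟨⇑f, f.continuous⟩`, `f ↦ ⟨f.1, f.2⟩` are linear bijections between `C(X, ℝ)` and `Cp X`.  A map `φ : Cp X → Cp Y` is continuous iff
`f ↦ (φ f).1` is continuous (`Topology.IsInducing.subtypeVal.continuous_iff`), and `{g : X → ℝ // Continuous g}` and `↥(Cp X)` are the same subtype (same predicate, the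
membership in `Cp X` is `Continuous g` by definition). -/
def BriStmt : Prop :=
  (∀ (X Y : Type) [TopologicalSpace X] [TopologicalSpace Y], LEq X Y ↔ LEc X Y) ∧
  (∀ (X : Type) [TopologicalSpace X] (A : Set X), LEmb A ↔ LEmc A)

/-- **CPE** (easy-medium).  Basic isomorphisms.
PROOF. (1) composition with the homeomorphism.  (2) a function on `X ⊕ Y` is continuous iff its restrictions are (`continuous_sum_dom`); both directions are continuous
for the pointwise topologies: every coordinate is an evaluation (`continuous_induced_rng`, `continuous_pi`, `Continuous.subtype_mk`).  (3) the same with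
`continuous_sigma_iff`.  (4) from (1), (2). -/
def CpeStmt : Prop :=
  (∀ (X Y : Type) [TopologicalSpace X] [TopologicalSpace Y], Nonempty (X ≃ₜ Y) → LEc X Y) ∧
  (∀ (X Y : Type) [TopologicalSpace X] [TopologicalSpace Y],
    Nonempty (↥(Cp (X ⊕ Y)) ≃L[ℝ] (↥(Cp X) × ↥(Cp Y)))) ∧
  (∀ (ι : Type) (X : ι → Type) [∀ i, TopologicalSpace (X i)],
    Nonempty (↥(Cp (Σ i, X i)) ≃L[ℝ] (∀ i, ↥(Cp (X i))))) ∧
  (∀ (X X' Y Y' : Type) [TopologicalSpace X] [TopologicalSpace X'] [TopologicalSpace Y]
    [TopologicalSpace Y'], LEc X X' → LEc Y Y' → LEc (X ⊕ Y) (X' ⊕ Y'))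

/-- **CEX** (easy).  l-embedded subspaces are complemented; clopen sets are l-embedded.
PROOF. (1) `p` = restriction to `A` (continuous linear).  (2) extension by 0: continuous because `A` and its complement are open. -/
def CexStmt : Prop :=
  (∀ (X : Type) [TopologicalSpace X] (A : Set X), LEmc A → Compl ↥(Cp A) ↥(Cp X)) ∧
  ∀ (X : Type) [TopologicalSpace X] (A : Set X), IsClopen A → LEmc A

/-- **PEL** (medium).  Pelczynski's decomposition and absorption.
PROOF. If `p (i x) = x` (`i : E → F`, `p : F → E`), then `F ≃L E × ker p` by `y ↦ (p y, y - i (p y))`, inverse `(x, z) ↦ i x + z` (continuous: topological vector spaces).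
`(ℕ → M) ≃L M × (ℕ → M)`: `f ↦ (f 0, fun n => f (n+1))`.  (1) `F = E × Z`, `E = F × W`, `E = E^ℕ`: `E ≃ E^ℕ ≃ E × E^ℕ ≃ E × E`, so `F ≃ E × Z ≃ (E × E) × Z ≃ E × F`, and
`E ≃ E^ℕ ≃ (F × W)^ℕ ≃ F × (F × W)^ℕ ≃ F × E`.  So `F ≃ E × F ≃ F × E ≃ E`.  (2) `E = F × W` (`W` a kernel): `E ≃ E^ℕ ≃ (F × W)^ℕ ≃ F × (W × (F × W)^ℕ) ≃ F × (F × W)^ℕ ≃ F × E`
(regroup: `(F × W)^ℕ ≃ F^ℕ × W^ℕ`, `F^ℕ ≃ F × F^ℕ`). -/
def PelStmt : Prop :=
  ∀ (E F : Type) [AddCommGroup E] [Module ℝ E] [TopologicalSpace E] [IsTopologicalAddGroup E]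
    [ContinuousSMul ℝ E] [AddCommGroup F] [Module ℝ F] [TopologicalSpace F]
    [IsTopologicalAddGroup F] [ContinuousSMul ℝ F], Nonempty (E ≃L[ℝ] (ℕ → E)) →
    (Compl E F → Compl F E → Nonempty (F ≃L[ℝ] E)) ∧
    (Compl F E → Nonempty (E ≃L[ℝ] (E × F)))

/-- **DUG** (medium-strong).  Dugundji's extension theorem for `C_p`.
PROOF. `A` empty: trivial (`Cp ∅` has one element, `φ = 0`).  Let `d` be a metric, `A` closed, nonempty.  For `x ∉ A` let `r x = dist(x, A)/4 > 0` and choose
`a x ∈ A` with `d(x, a x) ≤ 2 dist(x, A)`.  The subspace `X - A` is metrizable, so paracompact: a partition of unity `ρ_i` of the space `↥Aᶜ` (locally finite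
there), `ρ_i` supported in the ball of centre `x_i` and radius `r x_i` (`PartitionOfUnity.exists_isSubordinate` in the space `↥Aᶜ`).  Put
`φ f x = f x` on `A` and `φ f x = sum_i ρ_i x * f (a x_i)` (a finite sum) off `A`.  Continuous off `A` (locally finite).  At a point `a ∈ A`: let `|f - f a| < ε` on `A ∩ ball a δ`.  If
`d(x, a) < δ/9`, `x ∉ A` and `ρ_i x ≠ 0`, then `d(x, x_i) < r x_i = dist(x_i,A)/4`, `dist(x_i, A) ≤ d(x_i, a) ≤ d(x, a) + d(x, x_i)`, so `dist(x_i, A) ≤ (4/3) d(x, a)` and
`d(a x_i, a) ≤ d(a x_i, x_i) + d(x_i, x) + d(x, a) ≤ 4 d(x, a) < δ`: so `|φ f x - f a| ≤ ε` (convex combination).  Linear; for fixed `x` it depends on finitely many values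
of `f`: continuous for the pointwise topologies. -/
def DugStmt : Prop :=
  ∀ (X : Type) [TopologicalSpace X] [TopologicalSpace.MetrizableSpace X] (A : Set X),
    IsClosed A → LEmc A

/-- **NPC** (medium).  A discrete sequence of translates.
PROOF. Let `U` be a neighbourhood of 1 with no finite `F` with `F U = H`.  Choose a neighbourhood `W` of 1 with `W = W⁻¹`, `W W W W ⊆ U` and a closed neighbourhood
`V ⊆ W` of 1 (regular space).  Choose `g_n` by induction outside the union of the `g_i U`, `i < n`.  For every `x` the neighbourhood `x W` meets at most one `g_i V`: `x w = g_i v`,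
`x w' = g_j v'` (`i < j`) give `g_i⁻¹ g_j = v w⁻¹ w' v'⁻¹ ∈ W W W W ⊆ U`, contradiction (`g_j ∉ g_i U`). -/
def NpcStmt : Prop :=
  ∀ (H : Type) [Group H] [TopologicalSpace H] [IsTopologicalGroup H] [T2Space H],
    (∃ U ∈ nhds (1 : H), ∀ F : Finset H, (⋃ g ∈ F, g • U) ≠ Set.univ) →
    ∃ (V : Set H) (g : ℕ → H), V ∈ nhds (1 : H) ∧ IsClosed V ∧
      (∀ i j, i ≠ j → Disjoint (g i • V) (g j • V)) ∧ LocallyFinite (fun i => g i • V)

/-- **CVR** (medium).  `Cp H` is complemented in a power of `Cp V`.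
PROOF. `H` is Lindelöf: `H = ⋃_j h_j • interior V` for a sequence `h` (the translates of the interior of `V` are an open cover).  A partition of unity `ρ_j` with
`tsupport ρ_j ⊆ h_j • interior V` (metrizable: paracompact, normal; `PartitionOfUnity.exists_isSubordinate`).  `i f j v = f (h_j * v)` (`v ∈ V`).
`p F x = sum_j ρ_j x * F_j (h_j⁻¹ x)` (the summand is 0 if `x` is not in `h_j • V`): each summand is continuous (near a point of `h_j • interior V` it is a product of
continuous functions, off `tsupport ρ_j` it is 0), the sum is locally finite.  `p (i f) = f`.  Both are continuous for the pointwise topologies (every value depends on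
finitely many values). -/
def CvrStmt : Prop :=
  ∀ (H : Type) [Group H] [TopologicalSpace H] [IsTopologicalGroup H]
    [TopologicalSpace.MetrizableSpace H] [TopologicalSpace.SeparableSpace H] (V : Set H),
    V ∈ nhds (1 : H) → Compl ↥(Cp H) (ℕ → ↥(Cp V))

/-- **CCV** (medium; uses CEX, CPE, DUG).  A power of `Cp V` is complemented in `Cp H`.
PROOF. `Z = ⋃_i g_i • V` is closed (locally finite union of closed sets), and `Z` is homeomorphic to `Σ i : ℕ, V` (the `g_i • V` are pairwise disjoint and each is open in `Z`: the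
union of the others is closed by local finiteness).  DUG: `LEmc Z`; CEX: `Cp Z` is complemented in `Cp H`; CPE (1), (3): `Cp Z ≃ (ℕ → Cp V)`. -/
def CcvStmt : Prop :=
  ∀ (H : Type) [Group H] [TopologicalSpace H] [IsTopologicalGroup H]
    [TopologicalSpace.MetrizableSpace H] (V : Set H) (g : ℕ → H), IsClosed V →
    (∀ i j, i ≠ j → Disjoint (g i • V) (g j • V)) → LocallyFinite (fun i => g i • V) →
    Compl (ℕ → ↥(Cp V)) ↥(Cp H)

/-- **NPL** (medium; uses NPC, CVR, CCV, PEL, CEX, CPE, BRI).  OUTPUT: groups which are not precompact are l-stable.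
PROOF. `V`, `g` from NPC; `E = (ℕ → Cp V)`, `E ≃L (ℕ → E)` (reindexing by `ℕ × ℕ ≃ ℕ`: `Nat.pairEquiv`).  CVR, CCV, PEL (1): `Cp H ≃ E`.  So `Cp H ≃ (ℕ → Cp H)`; let `A` be l-embedded (BRI):
CEX, PEL (2) for `E = Cp H`, `F = Cp A`: `Cp H ≃ Cp H × Cp A ≃ Cp (H ⊕ A)` (CPE (2)). -/
def NplStmt : Prop :=
  ∀ (H : Type) [Group H] [TopologicalSpace H] [IsTopologicalGroup H]
    [TopologicalSpace.MetrizableSpace H] [TopologicalSpace.SeparableSpace H],
    (∃ U ∈ nhds (1 : H), ∀ F : Finset H, (⋃ g ∈ F, g • U) ≠ Set.univ) → LStable H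

/-- **ZST** (easy-medium; uses PEL, CEX, CPE, BRI).  `X × ℤ` is l-stable for every space `X`.
PROOF. `X × ℤ` is homeomorphic to `Σ n : ℕ, X` (ℤ is discrete and countable), so `Cp (X × ℤ) ≃ (ℕ → Cp X)` (CPE (1), (3)) `≃ (ℕ → ℕ → Cp X) ≃ (ℕ → Cp (X × ℤ))`.  For an l-embedded `A` (BRI):
CEX (1), PEL (2), CPE (2). -/
def ZstStmt : Prop := ∀ (X : Type) [TopologicalSpace X], LStable (X × ℤ)

/-! ## Block H -/

/-- **CYL** (easy-medium; uses MUK).  Haar measure of cylinders.
PROOF. The `2^n` cylinders `{x | ∀ i < n, x i = s i}` (`s` determined by its first `n` coordinates) are translates of one another (translation by an element), disjoint, with union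
everything, and `mu` is a translation invariant probability measure (MUK).  (Or by induction on `n`: the cylinder of depth `n` is the disjoint union of two translates.) -/
def CylStmt : Prop := ∀ (n : ℕ) (s : K), mu {x : K | ∀ i < n, x i = s i} = (2 ^ n : ENNReal)⁻¹

/-- **GNT** (easy-medium; uses MUK).  `G` is not everything.
PROOF. Suppose `G = ⊤`.  `Big.star` for `E = univ`, `φ x = fun n => x (n + 1)`: there is a countable `S` such that off a null set `φ x ∈ S` or `φ x - x ∈ S`.  The fibres of `φ` have two points; the fibres of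
`x ↦ φ x - x` too (`x (n + 1) = x n + y n`).  So `K` is the union of a countable set (null by MUK) and a null set; contradiction to `mu univ = 1`. -/
def GntStmt : Prop := ∀ G : AddSubgroup K, Big G → G ≠ ⊤

/-- **TRL** (medium-strong).  Cylinders of `G`.
PROOF. (1) choose `g ∈ G` in the cylinder of `s` (dense); `x ↦ x + g` (`x + x = 0` in `K`).  (2) split by the n-th coordinate: the half with `x n = 1` is a cylinder of
depth `n+1`, use (1); both halves are clopen.  (3) induction on `M` with (2).  (4) let `p0 ∉ G`; choose `g ∈ G` which agrees with `p0` in the first `n` coordinates, `p = p0 + g ∉ G`, `p` has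
its first `n` coordinates 0.  For `x ∈ Gc G n` (so `x ≠ p`) let `n + i` be the first coordinate where `x` and `p` differ: this is a partition of `Gc G n` into the open sets
`{x | x = p before n+i, x (n+i) ≠ p (n+i)}`, cylinders of depth `n+i+1`; (1).  (A partition into open sets indexed by ℕ: a homeomorphism to the Σ-type.) -/
def TrlStmt : Prop :=
  ∀ G : AddSubgroup K, Dense (G : Set K) →
    (∀ (n : ℕ) (s : K), Nonempty (↥{x : G | ∀ i < n, (x : K) i = s i} ≃ₜ ↥(Gc G n))) ∧
    (∀ n : ℕ, Nonempty (↥(Gc G n) ≃ₜ (↥(Gc G (n + 1)) ⊕ ↥(Gc G (n + 1))))) ∧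
    (∀ n M a : ℕ, Nonempty ((Fin a × ↥(Gc G n)) ≃ₜ (Fin (2 ^ M * a) × ↥(Gc G (n + M))))) ∧
    (G ≠ ⊤ → ∀ n : ℕ, Nonempty (↥(Gc G n) ≃ₜ Σ i : ℕ, ↥(Gc G (n + i + 1))))

/-- **OPN** (strong; uses CYL, TRL, OUT, DEN, GNT).  Clopen sets are infinite sums of cylinders.
PROOF. Let `A` be nonempty and open in `G × Fin k`.  For `(x, i) ∈ A` let `N(x,i)` be the least `N` such that the cylinder of depth `N` around `x` in `G`, times `{i}`, is contained in
`A`.  The cylinders of these depths are disjoint or equal (least depth: a common point determines the depth), open, and cover `A`: a countable partition of `A` (the set of all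
cylinders `(N, s, i)`, `s : Fin N → ZMod 2`, is countable).  TRL (1): `A` is a sum over a countable index set `J` of spaces `Gc G (n_j)`, and `dm A = sum_j 2^(-n_j)`: `sl A i` is the trace on `G`
of the union of the disjoint cylinders of `K` with third coordinate `i`; OUT, CYL, countable additivity.  Replace one summand by infinitely many (TRL (4) with GNT, the sum of the
measures does not change: geometric series); so `J` is infinite, `J ≃ ℕ` (`nonempty_denumerable`). -/
def OpnStmt : Prop :=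
  ∀ G : AddSubgroup K, Big G → ∀ (k : ℕ) (A : Set (G × Fin k)), IsClopen A → A.Nonempty →
    ∃ n : ℕ → ℕ, Nonempty (↥A ≃ₜ Σ j : ℕ, ↥(Gc G (n j))) ∧
      dm A = ∑' j : ℕ, (2 ^ n j : ENNReal)⁻¹

/-- **OVL** (medium; elementary).  Overlaps.
PROOF. `t_i = sum_(i' < i) 2^(-n_i')`, `t'_j = sum_(j' < j) 2^(-m_j')` (real numbers, finite sums of dyadic numbers), both strictly increasing with the same limit `r < ∞`, never
reached.  `q i j = max 0 (min t_(i+1) t'_(j+1) - max t_i t'_j)` = length of the overlap of `[t_i, t_(i+1))` and `[t'_j, t'_(j+1))`.  For fixed `i` only finitely many `j` have `q i j ≠ 0`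
(`t'_j > t_(i+1)` for large `j`), and their sum is `t_(i+1) - t_i` (the intervals `[t'_j, t'_(j+1))` are a partition of `[0, r)`); the same for fixed `j`.  `q i j` is a dyadic
number: `q i j = a i j/2^(N i j)`. -/
def OvlStmt : Prop :=
  ∀ n m : ℕ → ℕ, ∑' j : ℕ, (2 ^ n j : ENNReal)⁻¹ = ∑' j : ℕ, (2 ^ m j : ENNReal)⁻¹ →
    ∑' j : ℕ, (2 ^ n j : ENNReal)⁻¹ ≠ ⊤ →
    ∃ a N : ℕ → ℕ → ℕ,
      (∀ i, {j | a i j ≠ 0}.Finite ∧ ∑ᶠ j, (a i j : ℝ) / 2 ^ N i j = 1 / 2 ^ n i) ∧
      ∀ j, {i | a i j ≠ 0}.Finite ∧ ∑ᶠ i, (a i j : ℝ) / 2 ^ N i j = 1 / 2 ^ m j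

/-- **FSM** (medium; uses TRL).  A cylinder as a finite sum of prescribed size.
PROOF. Let `F` be the finite set of the `j` with `a j ≠ 0`, `M ≥` all `N j`, `j ∈ F`, and `M ≥ n`.  `Fin (a j) × Gc (N j) ≃ Fin (2^(M - N j) a j) × Gc M` (TRL (3)), and
`sum_j 2^(M - N j) a j = 2^(M - n)`; so the Σ-space is `Fin (2^(M-n)) × Gc M ≃ Fin 1 × Gc n` (TRL (3)).  The `j ∉ F` contribute empty spaces. -/
def FsmStmt : Prop :=
  ∀ G : AddSubgroup K, Dense (G : Set K) → ∀ (n : ℕ) (a N : ℕ → ℕ), {j | a j ≠ 0}.Finite →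
    ∑ᶠ j, (a j : ℝ) / 2 ^ N j = 1 / 2 ^ n →
    Nonempty (↥(Gc G n) ≃ₜ Σ j : ℕ, Fin (a j) × ↥(Gc G (N j)))

/-- **HME** (medium; uses OPN, OVL, FSM, DEN, OUT, CYL).  OUTPUT: clopen sets of equal measure are homeomorphic.
PROOF. If `dm A = dm B = 0` both are empty (a nonempty open set contains a box, whose slice is the trace of a cylinder; OUT, CYL).  Otherwise both are nonempty; OPN:
`A ≃ Σ i, Gc (n i)`, `B ≃ Σ j, Gc (m j)` with equal sums, `≤ k < ∞`.  OVL: `a`, `N`.  FSM for every `i`: `Gc (n i) ≃ Σ j, Fin (a i j) × Gc (N i j)`, and for every `j`: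
`Gc (m j) ≃ Σ i, Fin (a i j) × Gc (N i j)`.  So `A` and `B` are homeomorphic to `Σ (i : ℕ) (j : ℕ), Fin (a i j) × Gc (N i j)` (exchange of the two sums). -/
def HmeStmt : Prop :=
  ∀ G : AddSubgroup K, Big G → ∀ (k : ℕ) (A B : Set (G × Fin k)), IsClopen A → IsClopen B →
    dm A = dm B → Nonempty (↥A ≃ₜ ↥B)

/-! ## Block Z -/

/-- **NLS** (medium; uses MAI, CPE, CEX, BRI, OUT, CYL).  OUTPUT: `G` is neither l-stable nor S-stable.
PROOF. (1) if `LEq A B` and `dm A ≠ dm B`, say `dm A < dm B`, then `DMap A B` (the isomorphism is onto): against MAI; if `dm B < dm A` use the inverse.  (2) `A` clopen, nonempty in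
`G × Fin k`.  `G ⊕ A` is homeomorphic to the clopen subset `B = {(x,0)} ∪ {(x, i+1) | (x,i) ∈ A}` of `G × Fin (k+1)`, `G` to `B0 = {(x,0)}`; `dm B0 = 1` (OUT with `E = univ`),
`dm B = 1 + dm A`, `0 < dm A ≤ k` (a nonempty open set contains a box; OUT, CYL).  (1) (with CPE (1), BRI): `G` and `G ⊕ A` are not l-equivalent.  (3) `LStable` fails for
`A = univ` (l-embedded: CEX (2), BRI; `G ⊕ univ` is homeomorphic to `G ⊕ (univ : Set (G × Fin 1))`).  (4) If `LEq (G × OnePoint ℕ) G`: `G × OnePoint ℕ` is homeomorphic to `(G × OnePoint ℕ) ⊕ G`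
(`OnePoint ℕ ≃ₜ OnePoint ℕ ⊕ Unit`: shift the natural numbers; 0 goes to the isolated point), so by CPE `LEc G (G ⊕ G)`: against (2). -/
def NlsStmt : Prop :=
  ∀ G : AddSubgroup K, Big G →
    (∀ (k : ℕ) (A B : Set (G × Fin k)), IsClopen A → IsClopen B → LEq ↥A ↥B → dm A = dm B) ∧
    (∀ (k : ℕ) (A : Set (G × Fin k)), IsClopen A → A.Nonempty → ¬ LEq G (G ⊕ ↥A)) ∧
    ¬ LStable G ∧ ¬ SStable G

/-! ## Block S: `G × ℤ` is not S-stable -/

/-- `G` meets every uncountable measurable set. -/
def Unc (G : AddSubgroup K) : Prop :=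
  ∀ C : Set K, MeasurableSet C → ¬ C.Countable → ∃ x ∈ G, x ∈ C

/-- **CO2** (easy-medium; uses MUK, MYC, TRA, CRD; it contains CON, start from the file of CON).  The group meets every uncountable measurable set.
PROOF. The same construction.  Let `C` be measurable and uncountable.  One of the sets `C ∩ {x | x 0 = 0}`, `C ∩ {x | x 0 = 1}` is uncountable; call it `C'`.  By `MeasurableSet.isClopenable`
(finer Polish topology) and `IsClosed.exists_nat_bool_injection_of_not_countable` there is an injective `P : (ℕ → Bool) → K` with values in `C'`.  Let `φ x = fun n => x (n + 1)`: `φ` and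
`x ↦ φ x - x` are injective on `C'` (the coordinate 0 is fixed; `x (n + 1) = x n + (φ x - x) n`).  So the pair `(C', φ)` is in the set `I` of CON, and `G` meets `C'`. -/
def Co2Stmt : Prop := ∃ G : AddSubgroup K, Big G ∧ Unc G

/-- **BAI** (easy-medium).  `G` is a Baire space.
PROOF. Let `F m` be the closure in `K` of the image of `P m`; `x ∈ F m` and `x ∈ G` imply `x ∈ P m` (`P m` is closed in `G`: `closure_subtype` or `isClosed_induced_iff`).  If no `F m` contains a cylinder, the
complements `U m` are open and dense, so `C = ⋂ m, U m` is dense by Baire's theorem, and `C` is not countable: otherwise the intersection of the countably many dense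
open sets `U m` and `{x}ᶜ`, `x ∈ C` (`K` has no isolated points), would be empty and dense.  `Unc` gives `x ∈ G ∩ C`; but `x ∈ P m` for some `m`, so `x ∈ F m`: contradiction.  So some
`F m` contains a cylinder `{x | ∀ i < n, x i = s i}`. -/
def BaiStmt : Prop := ∀ G : AddSubgroup K, Unc G → ∀ P : ℕ → Set G, (∀ m, IsClosed (P m)) →
  (∀ x : G, ∃ m, x ∈ P m) →
  ∃ (m n : ℕ) (s : K), ∀ x : G, (∀ i < n, (x : K) i = s i) → x ∈ P m

/-- **BDS** (medium).  The supports of the points of a compact set are bounded.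
PROOF. Suppose not.  By recursion choose `y_k ∈ Q` and `a_k` with `c y_k a_k ≠ 0` and `|a_k.2| >` all `|a.2|`, `a` in the support of some `c y_j`, `j < k` (so the `|a_k.2|` are strictly increasing).
Choose by recursion `f_k ∈ C(X × ℤ, ℝ)` which is 0 outside the layer `X × {a_k.2}` and at the other points of the support of `c y_k`, with the value at `a_k` such that
`T (f_0 + ... + f_k) y_k = k` (`c y_k a_k ≠ 0`; `X` metrizable: there is a continuous function with value 1 at a point and 0 on a finite set).  The layers are different, so `f = ∑ f_k` is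
continuous (at every point at most one summand is not 0 on the layer).  `f_l`, `l > k`, vanishes on the support of `c y_k`, so `T f y_k = k`: `T f` is not bounded on the compact set `Q`. -/
def BdsStmt : Prop := ∀ (X Y : Type) [TopologicalSpace X] [TopologicalSpace.MetrizableSpace X]
  [TopologicalSpace Y] (T : C(X × ℤ, ℝ) →ₗ[ℝ] C(Y, ℝ)) (c : Y → (X × ℤ) →₀ ℝ), Rep T c →
  ∀ Q : Set Y, IsCompact Q → ∃ M : ℕ, ∀ y ∈ Q, ∀ a : X × ℤ, c y a ≠ 0 → |a.2| ≤ M

/-- **CLP** (easy).  The set of the points whose support is in a closed set is closed.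
PROOF. Let `c y a ≠ 0`, `a ∉ F`.  Take `f` continuous with `f a = 1`, `f = 0` on `F` and at the other points of the support of `c y` (a closed set not containing `a`; metrizable, Urysohn).
`T f y = c y a ≠ 0`, and `{y' | T f y' ≠ 0}` is an open neighbourhood of `y`; for `y'` in it the support of `c y'` is not contained in `F`. -/
def ClpStmt : Prop := ∀ (X Y : Type) [TopologicalSpace X] [TopologicalSpace.MetrizableSpace X]
  [TopologicalSpace Y] (T : C(X, ℝ) →ₗ[ℝ] C(Y, ℝ)) (c : Y → X →₀ ℝ), Rep T c →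
  ∀ F : Set X, IsClosed F → IsClosed {y : Y | ∀ a : X, c y a ≠ 0 → a ∈ F}

/-- **NSZ** (medium-strong; uses RPV, BDS, CLP, BAI, MAI, OUT, CYL).  OUTPUT: `G × ℤ` is not S-stable.
PROOF. Let `U : C(G × ℤ) → C((G × ℤ) × OnePoint ℕ)` be the inverse of the isomorphism (onto, `PCont`), `c` its coefficients (RPV).  For `x : G` the set of the points `((x, 0), n)`, `n : OnePoint ℕ`, is compact:
BDS gives `M`.  Let `P M = {x | ∀ n a, c ((x, 0), n) a ≠ 0 → |a.2| ≤ M}`: closed by CLP (`F = {a | |a.2| ≤ M}`; preimages under `x ↦ ((x, 0), n)`, intersection over `n`), their union is `G`.  BAI: `M`,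
`n`, `s` such that the cylinder of `s` of depth `n` in `G` is contained in `P M`.  Let `N = (2 M + 2) 2^n`, `k = N + 2 M + 1`, `A = {(x, i) | i < 2 M + 1}`, `B = {(x, i) | i < N, x in the cylinder}`, clopen in
`G × Fin k`: `dm A = 2 M + 1` (OUT), `dm B = N 2^(-n) = 2 M + 2` (OUT, CYL).  For `f : C(A, ℝ)` let `f~ (x, z) = f (x, z + M)` for `|z| ≤ M` and 0 otherwise: `f~ ∈ C(G × ℤ)`; `V f (x, i) = U f~ ((x, 0), i)`:
linear, `PCont`.  `V` is onto: for `g : C(B, ℝ)` let `h ((x, z), n) = g (x, i)` if `z = 0`, `x` is in the cylinder and `n = i < N`, and 0 otherwise (continuous: the points `i < N` are isolated in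
`OnePoint ℕ`), `h = U f'`, `f` = the corresponding restriction of `f'` to `A`; `f~ = f'` on `|z| ≤ M`, which contains the supports, so `V f (x, i) = U f' ((x, 0), i) = g (x, i)`.
So `DMap A B`: against MAI. -/
def NszStmt : Prop := ∀ G : AddSubgroup K, Big G → Unc G → ¬ SStable (G × ℤ)

/-- **FIN** (assembly: helper18, helper94; uses CO2, DEN, MAI, NLS, HME, CPE, BRI, NPL, ZST, NSZ).  THE THEOREM. -/
def FinStmt : Prop :=
  (∃ G : AddSubgroup K, Dense (G : Set K) ∧
    (∀ (k : ℕ) (A B : Set (G × Fin k)), IsClopen A → IsClopen B →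
      (LEq ↥A ↥B ↔ dm A = dm B) ∧ (Nonempty (↥A ≃ₜ ↥B) ↔ dm A = dm B) ∧
      (dm A < dm B → ¬ DMap ↥A ↥B)) ∧
    (∀ (k : ℕ) (A : Set (G × Fin k)), IsClopen A → A.Nonempty → ¬ LEq G (G ⊕ ↥A)) ∧
    ¬ LStable G ∧ ¬ SStable G ∧ LStable (G × ℤ) ∧ ¬ SStable (G × ℤ)) ∧
  ∀ (H : Type) [Group H] [TopologicalSpace H] [IsTopologicalGroup H]
    [TopologicalSpace.MetrizableSpace H] [TopologicalSpace.SeparableSpace H],
    (∃ U ∈ nhds (1 : H), ∀ F : Finset H, (⋃ g ∈ F, g • U) ≠ Set.univ) → LStable H

end Pool.Agent.LSG
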