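import Pool.Agent.LSG.StmtsA

/-!
# Squad LSG (MP_005a41_gt): stronger forms of NPL and NSZ, the three results
-/

set_option autoImplicit false

open MeasureTheory Set Topology
open scoped BigOperators Pointwise

namespace Pool.Agent.LSG

/-- **NP2** (easy after NPL: the same proof; uses NPC, CVR, CCV, PEL, CEX, CPE, BRI).  Stronger form of NPL.
PROOF. As NPL: `Cp H ≃ E = (ℕ → Cp V)`, `E ≃ (ℕ → E)`, so `Cp H ≃ (ℕ → Cp H)`, and this is `Cp (Σ n : ℕ, H)` (CPE (3)), `Cp (H × ℕ)` (CPE (1): `H × ℕ` is homeomorphic to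
`Σ n : ℕ, H`). -/
def Np2Stmt : Prop :=
  ∀ (H : Type) [Group H] [TopologicalSpace H] [IsTopologicalGroup H]
    [TopologicalSpace.MetrizableSpace H] [TopologicalSpace.SeparableSpace H],
    (∃ U ∈ nhds (1 : H), ∀ F : Finset H, (⋃ g ∈ F, g • U) ≠ Set.univ) →
    LEq H (H × ℕ) ∧ LStable H

/-- **NSD** (medium-strong; uses RPV, BDS, CLP, BAI, MAI, OUT, CYL).  Stronger form of NSZ (and a slightly simpler proof).
PROOF. Let `U : C(G × ℤ) → C(G × OnePoint ℕ)` be as in `DMap`, `c` its coefficients (RPV).  For `x : G` the set of the points `(x, n)`, `n : OnePoint ℕ`, is compact: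
BDS gives `M`.  Let `P M = {x | ∀ n a, c (x, n) a ≠ 0 → |a.2| ≤ M}`: closed by CLP (`F = {a | |a.2| ≤ M}`; preimages under `x ↦ (x, n)`, intersection over `n`), their union is `G`.  BAI: `M`,
`n`, `s` such that the cylinder of `s` of depth `n` in `G` is contained in `P M`.  Let `N = (2 M + 2) 2^n`, `k = N + 2 M + 1`, `A = {(x, i) | i < 2 M + 1}`, `B = {(x, i) | i < N, x in the cylinder}`, clopen in
`G × Fin k`: `dm A = 2 M + 1` (OUT), `dm B = N 2^(-n) = 2 M + 2` (OUT, CYL).  For `f : C(A, ℝ)` let `f~ (x, z) = f (x, z + M)` for `|z| ≤ M` and 0 otherwise: `f~ ∈ C(G × ℤ)`; `V f (x, i) = U f~ (x, i)`: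
linear, `PCont`.  `V` has dense range: for `g : C(B, ℝ)` let `h (x, n) = g (x, i)` if `x` is in the cylinder and `n = i < N`, and 0 otherwise (continuous: the points `i < N` are isolated in
`OnePoint ℕ`); choose `f'` with `|U f' - h| < ε` at the finitely many points `(x, i)`, `f` = the corresponding restriction of `f'` to `A`; `f~ = f'` on `|z| ≤ M`, which contains the supports, so
`V f (x, i) = U f' (x, i)`.  So `DMap A B`: against MAI. -/
def NsdStmt : Prop := ∀ G : AddSubgroup K, Big G → Unc G → ¬ DMap (G × ℤ) (G × OnePoint ℕ)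

/-- **SZD** (easy; no hypotheses).  S-stability of `X × ℤ` gives a map.
PROOF. `T : C((X × ℤ) × OnePoint ℕ) ≃ C(X × ℤ)`; compose `T.symm` with the restriction `h ↦ ((x, n) ↦ h ((x, 0), n))`, which is linear, `PCont` and onto: `h` is the image of `h ((x, z), n) = g (x, n)`. -/
def SzdStmt : Prop := ∀ (X : Type) [TopologicalSpace X], SStable (X × ℤ) → DMap (X × ℤ) (X × OnePoint ℕ)

/-- **FN1** (assembly, helper18).  RESULT 1 -/
def Fn1Stmt : Prop :=
  ∃ G : AddSubgroup K, Dense (G : Set K) ∧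
    (∀ (k : ℕ) (A B : Set (G × Fin k)), IsClopen A → IsClopen B →
      (LEq ↥A ↥B ↔ dm A = dm B) ∧ (Nonempty (↥A ≃ₜ ↥B) ↔ dm A = dm B) ∧
      (dm A < dm B → ¬ DMap ↥A ↥B)) ∧
    (∀ (k : ℕ) (A : Set (G × Fin k)), IsClopen A → A.Nonempty → ¬ LEq G (G ⊕ ↥A)) ∧
    ¬ LStable G ∧ ¬ SStable G

/-- **FN3** (assembly, helper18).  RESULT 3 (result 2 is NP2) -/
def Fn3Stmt : Prop :=
  ∃ G : AddSubgroup K, Dense (G : Set K) ∧ LStable (G × ℤ) ∧ ¬ SStable (G × ℤ) ∧
    ¬ DMap (G × ℤ) (G × OnePoint ℕ)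

end Pool.Agent.LSG
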