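import Pool.Agent.LSG.StmtsB

/-!
# Squad LSG (MP_005a41_gt), blocks R, U: positive results

R: every nonzero metrizable topological vector space is l-stable and S-stable.
U: every metrizable group with an unbounded continuous length function is l-stable.
-/

set_option autoImplicit false

open MeasureTheory Set Topology
open scoped BigOperators Pointwise

namespace Pool.Agent.LSG

/-- The continuous functions on `Y × OnePoint ℕ` which vanish on `Y × {∞}` -/
def Cz (Y : Type) [TopologicalSpace Y] : Submodule ℝ (Y × OnePoint ℕ → ℝ) where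
  carrier := {f | Continuous f ∧ ∀ y, f (y, OnePoint.infty) = 0}
  add_mem' := by
    rintro f g ⟨hf, hf0⟩ ⟨hg, hg0⟩
    exact ⟨Continuous.add hf hg, fun y => by simp [hf0, hg0]⟩
  zero_mem' := ⟨continuous_const, fun _ => rfl⟩
  smul_mem' := by
    rintro c f ⟨hf, hf0⟩
    exact ⟨Continuous.const_smul hf c, fun y => by simp [hf0]⟩

/-- **CZE** (easy-medium).  Sequences.
PROOF. (1) `f ↦ (f (·, ∞), f - f (·, ∞))`, inverse `(g, h) ↦ g ∘ fst + h`.  (2) `f ↦ (f (·, 0), (y, n) ↦ f (y, n + 1))`; the inverse of `(g, h)` is `g` at `n = 0`, `h (·, n - 1)` at `n > 0`, 0 at ∞.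
(3) `f ↦ ((y, n) ↦ f (y, 2 n), (y, n) ↦ f (y, 2 n + 1))`, inverse: alternate.  The maps `n ↦ n + 1`, `2 n`, `2 n + 1` of ℕ extend to continuous maps of `OnePoint ℕ` (∞ to ∞).  A function `f` with
`f (y, ∞) = 0` is continuous iff every `f (·, n)` is continuous and for every `y` and `ε > 0` there are a neighbourhood `U` of `y` and `n₀` with `|f (y', n)| < ε` for `y' ∈ U`, `n ≥ n₀`.  The topologies
are the pointwise ones (all coordinates of all maps are evaluations or differences of evaluations). -/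
def CzeStmt : Prop := ∀ (Y : Type) [TopologicalSpace Y],
  Nonempty (↥(Cp (Y × OnePoint ℕ)) ≃L[ℝ] (↥(Cp Y) × ↥(Cz Y))) ∧
  Nonempty (↥(Cz Y) ≃L[ℝ] (↥(Cp Y) × ↥(Cz Y))) ∧
  Nonempty (↥(Cz Y) ≃L[ℝ] (↥(Cz Y) × ↥(Cz Y)))

/-- **CZI** (medium).  The space of null sequences is complemented.
PROOF. `J_n = [a_n, b_n] = [1/(2n+2), 1/(2n+1)]`, pairwise disjoint intervals tending to 0; `c_n t` = the clamp of `(t - a_n)/(b_n - a_n)` to `[0, 1]`; `w_n : I → [0, 1]` continuous, 1 on
`J_n`, with pairwise disjoint supports, locally finite off 0 (for example `w_n t = max 0 (1 - dist(t, J_n) * 3 * (2n+3)^2)`: the gaps have length `≥ 1/((2n+3)(2n+2))`).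
`i f (x, t) = ∑ n, w_n t * f ((x, c_n t), n)` (at most one summand is not 0).  Continuity at `(x, 0)`: by the tube lemma (`I` compact, `f ((x, s), ∞) = 0`) there are a neighbourhood `U` of `x` and `n₀`
with `|f ((y, s), n)| < ε` for `y ∈ U`, all `s`, `n ≥ n₀`.  `p g ((x, s), n) = g (x, a_n + s (b_n - a_n)) - g (x, 0)`, and 0 at `n = ∞` (continuous: `a_n + s (b_n - a_n) → 0` uniformly).  `p (i f) = f`. -/
def CziStmt : Prop := ∀ (X : Type) [TopologicalSpace X],
  Compl ↥(Cz (X × unitInterval)) ↥(Cp (X × unitInterval))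

/-- **CZS** (easy-medium; uses CZE, CZI).  `X × [0, 1]` is S-stable.
PROOF. Let `E = Cp (X × I)`, `Z = Cz (X × I)`.  CZI: `E ≃ Z × W` (`W` = the kernel of `p`; `y ↦ (p y, y - i (p y))`).  CZE: `Z ≃ E × Z`, `Z ≃ Z × Z`.  So
`E ≃ Z × W ≃ (Z × Z) × W ≃ Z × E ≃ E × Z`, and `E × Z ≃ Cp ((X × I) × OnePoint ℕ)` by CZE (1). -/
def CzsStmt : Prop := ∀ (X : Type) [TopologicalSpace X],
  LEc (X × unitInterval) ((X × unitInterval) × OnePoint ℕ)

/-- **RNI** (medium; uses PEL).  The line is a sequence of intervals.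
PROOF. `E = (ℕ → Cp (X × I))`, `E ≃ (ℕ → E)` (`Nat.pairEquiv`).  (a) `Cp (X × ℝ)` is complemented in `E` (index ℤ ≃ ℕ): `i f n (x, s) = f (x, n - 1 + 2 s)` and
`p F (x, t) = ∑ n : ℤ, max 0 (1 - |t - n|) * F n (x, clamp ((t - n + 1)/2))` (locally finite sum of continuous functions).  (b) `E` is complemented in `Cp (X × ℝ)`:
`i F (x, t) = ∑ n : ℕ, max 0 (1 - 2 dist(t, [3n, 3n+1])) * F n (x, clamp (t - 3n))`, `p f n (x, s) = f (x, 3n + s)`.  PEL (1). -/
def RniStmt : Prop := ∀ (X : Type) [TopologicalSpace X],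
  Nonempty (↥(Cp (X × ℝ)) ≃L[ℝ] (ℕ → ↥(Cp (X × unitInterval))))

/-- **RXS** (easy-medium; uses CZS, RNI, PEL, CEX, CPE, BRI).  `X × ℝ` is l-stable and S-stable, for every space `X`.
PROOF. l-stable: `E = Cp (X × ℝ) ≃ (ℕ → Cp (X × I)) ≃ (ℕ → E)`; for an l-embedded `A` (BRI) CEX (1), PEL (2), CPE (2).  S-stable: `(X × ℝ) × OnePoint ℕ` is homeomorphic to
`(X × OnePoint ℕ) × ℝ`; RNI: `Cp ≃ (ℕ → Cp ((X × OnePoint ℕ) × I))`, `(X × OnePoint ℕ) × I` is homeomorphic to `(X × I) × OnePoint ℕ` (CPE (1)), CZS, RNI again. -/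
def RxsStmt : Prop := ∀ (X : Type) [TopologicalSpace X], LStable (X × ℝ) ∧ SStable (X × ℝ)

/-- **TVF** (medium-strong).  A nonlinear functional.
PROOF. Let `L = ℝ x` (closed: finite dimensional).  There is a translation invariant F-norm; or work with neighbourhoods: choose a balanced neighbourhood `U₀` of 0 with `x ∉ U₀`, a symmetric neighbourhood `U`
with `U + U + U ⊆ U₀`, and `f : V → ℝ` continuous, `f ≥ 0`, `f 0 > 0`, `f = 0` off `U`.  If `v - s x ∈ U + U'` and `v - s' x ∈ U + U'` (`U' + U' ⊆ U`), then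
`(s - s') x ∈ U₀`, so `|s - s'| < 1` (`U₀` balanced, `x ∉ U₀`).  So `Φ v = ∫ f (v - s x) ds` and `Ψ v = ∫ s f (v - s x) ds` exist and are continuous (near `v₀` all integrands vanish outside one
compact interval: `continuous_parametric_intervalIntegral` or the like; if no `s` has `v₀ - s x ∈ U + U'` the integrands are 0 near `v₀`), `Φ (v + t x) = Φ v`, `Ψ (v + t x) = Ψ v + t Φ v`, `Φ 0 > 0`.  On the open set
`O = {Φ > 0}`, which is invariant under `L` and contains 0, `F₀ = Ψ/Φ` has `F₀ (v + t x) = F₀ v + t`.  Glue: `V ⧸ L` is a metrizable, so paracompact, space (topological group with a countable base of neighbourhoods of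
0, Hausdorff because `L` is closed); a locally finite partition of unity `ρ_w`, `w ∈ V`, of `V ⧸ L` with `tsupport ρ_w ⊆ π (w + O)` (`PartitionOfUnity.exists_isSubordinate`), and
`F v = ∑ w, ρ_w (π v) * F₀ (v - w)` (finite sum, locally finite; each summand, read as 0 off the support, is continuous), `F (v + t x) = F v + t ∑ ρ_w = F v + t`. -/
def TvfStmt : Prop := ∀ (V : Type) [AddCommGroup V] [Module ℝ V] [TopologicalSpace V]
  [IsTopologicalAddGroup V] [ContinuousSMul ℝ V] [TopologicalSpace.MetrizableSpace V] (x : V),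
  x ≠ 0 → ∃ F : V → ℝ, Continuous F ∧ ∀ (v : V) (t : ℝ), F (v + t • x) = F v + t

/-- **TVS** (easy; uses RXS, TVF, CPE, BRI).  OUTPUT: nonzero metrizable topological vector spaces are l-stable and S-stable.
PROOF. `x ≠ 0`, `F` from TVF, `X = {v // F v = 0}`: `V` is homeomorphic to `X × ℝ` by `v ↦ (v - F v • x, F v)`, inverse `(y, t) ↦ y + t • x`.  RXS for `X × ℝ`; both properties are transported by a homeomorphism
`h : V ≃ₜ X × ℝ` (`A ⊆ V` l-embedded implies `h '' A` l-embedded; `V ⊕ A` homeomorphic to `(X × ℝ) ⊕ h '' A`; CPE (1), BRI, composition with the homeomorphisms). -/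
def TvsStmt : Prop := ∀ (V : Type) [AddCommGroup V] [Module ℝ V] [TopologicalSpace V]
  [IsTopologicalAddGroup V] [ContinuousSMul ℝ V] [TopologicalSpace.MetrizableSpace V]
  [Nontrivial V], LStable V ∧ SStable V

/-- **UNB** (medium-strong; uses DUG, PEL, CEX, CPE, BRI).  Groups with an unbounded length function.
PROOF. `ℓ ≥ 0` (`ℓ 1 ≤ 2 ℓ 1`, `ℓ 1 ≤ ℓ g + ℓ g⁻¹ = 2 ℓ g`), `|ℓ (g b) - ℓ g| ≤ ℓ b`.  `B n = {h | n - 1 ≤ ℓ h ≤ n + 1}`, closed.
(a) `Compl (Cp H) (∀ n, Cp (B n))`: `i` = restrictions, `p F h = ∑ n, max 0 (1 - |ℓ h - n|) * F n h` (the summand is 0 off `B n`; it is continuous: in the open set `|ℓ h - n| < 1` a product, at a point of `B n` with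
`|ℓ h - n| = 1` because `F n` is bounded near it in `B n`; locally finite).  (b) let `n j = (Nat.unpair j).1`; choose `g j` by recursion with `ℓ (g (j+1)) > ℓ (g j) + n j + n (j+1) + 4`.  The values of `ℓ` on
`g j • B (n j)` are in `[ℓ (g j) - n j - 1, ℓ (g j) + n j + 1]`; these intervals have gaps `> 1`, so the sets are closed, pairwise disjoint and locally finite, `Z` = their union is closed, homeomorphic to
`Σ j, B (n j)`.  DUG, CEX (1), CPE (1), (3): `Compl (∀ j, Cp (B (n j))) (Cp H)`.  (c) `E = ∀ j, Cp (B (n j))`: every `n` is `n j` for infinitely many `j` (`Nat.pair`), `E ≃ ∀ n, (ℕ → Cp (B n)) ≃ (ℕ → E)`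
(`ℕ × ℕ ≃ ℕ`), and `∀ n, Cp (B n)` is complemented in `E` (coordinates `j = Nat.pair n 0`), so `Compl (Cp H) E`.  PEL (1): `Cp H ≃ E`, so `Cp H ≃ (ℕ → Cp H)`, which is `Cp (H × ℕ)` (CPE (1), (3)).
l-stable: as in NP2 (PEL (2), CEX (1), CPE (2), BRI). -/
def UnbStmt : Prop :=
  ∀ (H : Type) [Group H] [TopologicalSpace H] [IsTopologicalGroup H]
    [TopologicalSpace.MetrizableSpace H] (ℓ : H → ℝ), Continuous ℓ →
    (∀ g h, ℓ (g * h) ≤ ℓ g + ℓ h) → (∀ g, ℓ g⁻¹ = ℓ g) → (∀ r : ℝ, ∃ g, r < ℓ g) →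
    LEq H (H × ℕ) ∧ LStable H

end Pool.Agent.LSG
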